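import Pool.Agent.H916T.Defs
import Pool.Agent.N992.Defs

/-!
# Modular Tate characters

`Pool.Agent.N992.ModularSpectrum` describes the multisets of the nonzero exponents of
`(1 1; 0 1)` in representations of `PSL(2, ℤ)` with congruence kernel.
-/

namespace Pool.Agent.N214.FT

open Pool.Agent.H916T Pool.Agent.N992

/-- The Tate characters of degree `m` in characteristic `p` which are a union of modular spectra and
of residues killed by 12. -/
def ModularTate (p m : ℕ) (s : Multiset (ZMod m)) : Prop :=
  IsTate p m s ∧ ∃ (_ : NeZero m) (L : List (Multiset (ZMod m))) (r : Multiset (ZMod m)),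
    (∀ b ∈ L, ModularSpectrum m b) ∧ (∀ a ∈ r, 12 * a = 0) ∧ s = L.sum + r

end Pool.Agent.N214.FT
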