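import Pool.Agent.H916Y.Leg

/-!
# Parities of supports from quadratic characters, with auxiliary primes congruent to three modulo four
-/

set_option linter.unusedSectionVars false

namespace Pool.Agent.N214.FT

open Finset Pool.Agent.H916R2 Pool.Agent.H916T Pool.Agent.H916U Pool.Agent.H916Z Pool.Agent.H916Q
  Pool.Agent.H916Y

/-- the factor of the auxiliary primes -/
def fac {m : ℕ} (V : Finset (PF m)) : ℤ := ∏ j ∈ V, ((((j : ℕ) - 1) / 2 : ℕ) : ℤ)

/-- the family of functions attached to one function -/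
noncomputable def fam' {m : ℕ} (Q0 R : Finset (PF m)) (ω : (∀ i, GG m i) → ℤ) :
    Finset (PF m) → (∀ i, GG m i) → ℤ := fun U =>
  if Q0 ⊆ U ∧ U ⊆ Q0 ∪ R then fun x => fac (R \ U) * ω x else fun _ => 0

/-- the conditions on the function -/
structure Gen' (m : ℕ) (Q0 R : Finset (PF m)) (ω : (∀ i, GG m i) → ℤ) : Prop where
  three : ∀ j ∈ R, (j : ℕ) % 4 = 3
  disj : ∀ j ∈ R, j ∉ Q0
  ne : Q0.Nonempty
  ind : ∀ k, k ∉ Q0 → Ind k ω
  odd : ∀ x, ω (sg m * x) = - ω x
  nn : ∀ i ∈ Q0, ∀ x, NN i ω x = 0
  inv : ∀ j, j ∉ Q0 → j ∉ R → ∀ x, ω (tt m j * x) = ω x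
  neg : ∀ j ∈ R, ∀ x, ω (tt m j * x) = - ω x
  par : ∀ x, ¬ 2 ∣ ω x

variable {m : ℕ} {Q0 R : Finset (PF m)} {ω : (∀ i, GG m i) → ℤ}

theorem Gen'.dist (h : Gen' m Q0 R ω) : Dist (sg m) (tt m) (fam' Q0 R ω) where
  ind := by
    intro U k hk
    unfold fam'
    by_cases hU : Q0 ⊆ U ∧ U ⊆ Q0 ∪ R
    · rw [if_pos hU]
      intro y x
      have := h.ind k (fun h' => hk (hU.1 h')) y x
      simp only [this]
    · rw [if_neg hU]
      exact fun _ _ => rfl
  odd := by
    intro U x
    unfold fam'
    by_cases hU : Q0 ⊆ U ∧ U ⊆ Q0 ∪ R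
    · rw [if_pos hU]
      simp only [h.odd x]; ring
    · rw [if_neg hU]; simp
  rel := by
    intro U j hj
    funext x
    by_cases hQ : Q0 ⊆ U
    · by_cases hjQ : j ∈ Q0
      · have h1 : ¬ (Q0 ⊆ U.erase j ∧ U.erase j ⊆ Q0 ∪ R) := fun h' => notMem_erase j U (h'.1 hjQ)
        have h2 : DD (tt m j) (fam' Q0 R ω (U.erase j)) x = 0 := by
          unfold fam'
          rw [if_neg h1]; simp [DD]
        rw [h2]
        unfold fam'
        by_cases hU : Q0 ⊆ U ∧ U ⊆ Q0 ∪ R
        · rw [if_pos hU]
          have h3 := h.nn j hjQ x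
          unfold NN at h3 ⊢
          rw [← mul_sum, h3, mul_zero]
        · rw [if_neg hU]; simp [NN]
      · have hQe : Q0 ⊆ U.erase j := fun y hy => mem_erase.mpr ⟨fun h' => hjQ (h' ▸ hy), hQ hy⟩
        by_cases hU : U ⊆ Q0 ∪ R
        · have hjR : j ∈ R := by
            rcases mem_union.mp (hU hj) with h' | h'
            · exact absurd h' hjQ
            · exact h'
          have h1 : Q0 ⊆ U.erase j ∧ U.erase j ⊆ Q0 ∪ R := ⟨hQe, (erase_subset _ _).trans hU⟩
          unfold fam'
          rw [if_pos h1, if_pos ⟨hQ, hU⟩]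
          unfold DD NN
          have h2 : ∀ y : GG m j, fac (R \ U) * ω (Pi.mulSingle j y * x) = fac (R \ U) * ω x :=
            fun y => by rw [h.ind j hjQ y x]
          beta_reduce
          rw [sum_congr rfl fun y _ => h2 y, h.neg j hjR, sum_const, card_univ, nsmul_eq_mul]
          have hjp : (j : ℕ).Prime := Fact.out
          have h3 : Fintype.card (GG m j) = (j : ℕ) - 1 := by
            rw [ZMod.card_units_eq_totient, Nat.totient_prime hjp]
          have h4 : R \ U.erase j = insert j (R \ U) := by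
            ext y
            simp only [mem_sdiff, mem_erase, mem_insert]
            constructor
            · rintro ⟨h5, h6⟩
              by_cases h7 : y = j
              · left; exact h7
              · right; exact ⟨h5, fun h8 => h6 ⟨h7, h8⟩⟩
            · rintro (h5 | ⟨h5, h6⟩)
              · rw [h5]; exact ⟨hjR, fun h' => h'.1 rfl⟩
              · exact ⟨h5, fun h' => h6 h'.2⟩
          have h5 : fac (R \ U.erase j) = ((((j : ℕ) - 1) / 2 : ℕ) : ℤ) * fac (R \ U) := by
            rw [h4]; unfold fac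
            rw [prod_insert]
            intro h6
            exact (mem_sdiff.mp h6).2 hj
          have h6 : (((j : ℕ) - 1 : ℕ) : ℤ) = 2 * ((((j : ℕ) - 1) / 2 : ℕ) : ℤ) := by
            have h7 := h.three j hjR
            have h8 : (j : ℕ) - 1 = 2 * (((j : ℕ) - 1) / 2) := by omega
            exact_mod_cast h8
          rw [h3, h5, h6]
          ring
        · have h1 : ¬ (Q0 ⊆ U ∧ U ⊆ Q0 ∪ R) := fun h' => hU h'.2
          have h2 : NN j (fam' Q0 R ω U) x = 0 := by
            unfold fam'
            rw [if_neg h1]; simp [NN]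
          rw [h2]
          unfold fam'
          by_cases h3 : Q0 ⊆ U.erase j ∧ U.erase j ⊆ Q0 ∪ R
          · rw [if_pos h3]
            have h4 : j ∉ R := by
              intro h'
              apply hU
              intro y hy
              by_cases hyj : y = j
              · rw [hyj]; exact mem_union_right _ h'
              · exact h3.2 (mem_erase.mpr ⟨hyj, hy⟩)
            unfold DD
            beta_reduce
            rw [h.inv j hjQ h4]; ring
          · rw [if_neg h3]; simp [DD]
    · have h1 : ¬ (Q0 ⊆ U ∧ U ⊆ Q0 ∪ R) := fun h' => hQ h'.1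
      have h2 : ¬ (Q0 ⊆ U.erase j ∧ U.erase j ⊆ Q0 ∪ R) :=
        fun h' => hQ (h'.1.trans (erase_subset _ _))
      unfold fam'
      rw [if_neg h1, if_neg h2]
      simp [NN, DD]
  zero := by
    intro x
    unfold fam'
    have h1 : ¬ (Q0 ⊆ ∅ ∧ (∅ : Finset (PF m)) ⊆ Q0 ∪ R) := by
      rintro ⟨h', _⟩
      obtain ⟨y, hy⟩ := h.ne
      exact absurd (h' hy) (by simp)
    rw [if_neg h1]

lemma fac_odd {V : Finset (PF m)} (hV : ∀ j ∈ V, (j : ℕ) % 4 = 3) : ¬ (2 : ℤ) ∣ fac V := by
  intro h
  unfold fac at h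
  rw [Prime.dvd_finsetProd_iff Int.prime_two] at h
  obtain ⟨i, hi, hi2⟩ := h
  have h1 := hV i hi
  have h2 : 2 ∣ ((i : ℕ) - 1) / 2 := by exact_mod_cast hi2
  omega

variable [NeZero m]

open scoped Classical in
/-- **Evenness.** -/
theorem even_count' {p : ℕ} (hp : p.Coprime m) {s : Multiset (ZMod m)} (hs : Rel0 p s)
    (hG : Gen' m Q0 R ω) (h2Q : ∀ i ∈ Q0, (i : ℕ) ≠ 2) (hpi : ∀ x, ω (vec m p * x) = ω x) :
    Even (s.countP fun a => Q0 ⊆ H916Q.TT m (addOrderOf a) ∧ H916Q.TT m (addOrderOf a) ⊆ Q0 ∪ R) := by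
  set φ := fam' Q0 R ω with hφdef
  have hφ : Dist (sg m) (tt m) φ := hG.dist
  have hinv : ∀ U x, φ U (vec m p * x) = φ U x := by
    intro U x
    simp only [hφdef, fam']
    split_ifs with h
    · beta_reduce
      rw [hpi x]
    · rfl
  obtain ⟨k, hk, hk0⟩ := H916D.torsion_sum hp (Psi_od' hφ) (Psi_inv hφ hp hinv) s hs
  have hsum : (s.map (Psi φ)).sum = 0 := by
    rw [nsmul_eq_mul] at hk0
    rcases mul_eq_zero.mp hk0 with h | h
    · exact absurd (by exact_mod_cast h) hk.ne'
    · exact h
  -- divide by the power of two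
  obtain ⟨v, m', hm', hmm⟩ := Nat.exists_eq_two_pow_mul_odd (NeZero.ne m)
  have h2v : (2 : ℤ) ^ v ≠ 0 := pow_ne_zero _ two_ne_zero
  set P : ZMod m → Prop := fun a => Q0 ⊆ H916Q.TT m (addOrderOf a) ∧ H916Q.TT m (addOrderOf a) ⊆ Q0 ∪ R with hP
  have hodd : ∀ a : ZMod m, P a → ∃ r : ℤ, ¬ 2 ∣ r ∧ Psi φ a = 2 ^ v * r := by
    intro a ha
    have h2n : ¬ 2 ∣ addOrderOf a := by
      intro h2
      have h2m : 2 ∣ m := h2.trans (addOrderOf_dvd_level a)
      have h3 : (⟨2, Nat.mem_primeFactors.mpr ⟨Nat.prime_two, h2m, NeZero.ne m⟩⟩ : PF m) ∈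
          H916Q.TT m (addOrderOf a) := mem_TT.mpr h2
      rcases mem_union.mp (ha.2 h3) with h4 | h4
      · exact h2Q _ h4 rfl
      · have := hG.three _ h4
        simp at this
    have hdvd := addOrderOf_dvd_level a
    have hg : Nat.gcd a.val m = m / addOrderOf a := by
      rw [H916Q.addOrderOf_eq, Nat.div_div_self (Nat.gcd_dvd_right _ _) (NeZero.ne m)]
    have hcop : (addOrderOf a).Coprime (2 ^ v) := by
      apply Nat.Coprime.pow_right
      rw [Nat.coprime_comm, Nat.prime_two.coprime_iff_not_dvd]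
      exact h2n
    have hdm' : addOrderOf a ∣ m' := by
      have h5 : addOrderOf a ∣ 2 ^ v * m' := hmm ▸ hdvd
      exact hcop.dvd_of_dvd_mul_left h5
    obtain ⟨e, he⟩ := hdm'
    have hpos := addOrderOf_pos a
    have hge : Nat.gcd a.val m = 2 ^ v * e := by
      have h5 : m = addOrderOf a * (2 ^ v * e) := by
        calc m = 2 ^ v * m' := hmm
          _ = 2 ^ v * (addOrderOf a * e) := congrArg (fun z => 2 ^ v * z) he
          _ = addOrderOf a * (2 ^ v * e) := by ring
      rw [hg]
      exact Nat.div_eq_of_eq_mul_right hpos h5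
    have heodd : ¬ 2 ∣ e := by
      intro h
      have h5 : 2 ∣ m' := he ▸ (h.mul_left _)
      exact (Nat.not_even_iff_odd.mpr hm') (even_iff_two_dvd.mpr h5)
    refine ⟨(e : ℤ) * (∏ i ∈ H916Q.TT m (m / Nat.gcd a.val m), ((i : ℕ) : ℤ)) *
      (fac (R \ H916Q.TT m (addOrderOf a)) * ω (vec m (a.val / Nat.gcd a.val m))), ?_, ?_⟩
    · intro h
      rcases Int.prime_two.dvd_or_dvd h with h | h
      · rcases Int.prime_two.dvd_or_dvd h with h | h
        · exact heodd (by exact_mod_cast h)
        · rw [Prime.dvd_finsetProd_iff Int.prime_two] at h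
          obtain ⟨i, hi, hi2⟩ := h
          rw [← H916Q.addOrderOf_eq] at hi
          have h6 : 2 ∣ (i : ℕ) := by exact_mod_cast hi2
          have hip : (i : ℕ).Prime := Fact.out
          have h7 := (Nat.prime_dvd_prime_iff_eq Nat.prime_two hip).mp h6
          rw [mem_TT, ← h7] at hi
          exact h2n hi
      · rcases Int.prime_two.dvd_or_dvd h with h | h
        · exact fac_odd (fun j hj => hG.three j (mem_sdiff.mp hj).1) h
        · exact hG.par _ h
    · unfold Psi PsiN
      have h8 : φ (H916Q.TT m (m / Nat.gcd a.val m)) =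
          fun x => fac (R \ H916Q.TT m (addOrderOf a)) * ω x := by
        simp only [hφdef, fam']
        rw [← H916Q.addOrderOf_eq, if_pos ha]
      rw [h8]
      have h9 : ((Nat.gcd a.val m : ℕ) : ℤ) = 2 ^ v * (e : ℤ) := by
        rw [hge]; push_cast; rfl
      rw [h9]; ring
  have hzero : ∀ a : ZMod m, ¬ P a → Psi φ a = 0 := by
    intro a ha
    unfold Psi PsiN
    have h8 : φ (H916Q.TT m (m / Nat.gcd a.val m)) = fun _ => 0 := by
      simp only [hφdef, fam']
      rw [← H916Q.addOrderOf_eq, if_neg ha]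
    rw [h8]; simp
  choose! r hr1 hr2 using hodd
  refine countP_parity P (fun a => if P a then r a else 0) ?_ s ?_
  · intro a
    by_cases ha : P a
    · simp only [if_pos ha]
      exact ⟨fun h => absurd h (hr1 a ha), fun h => absurd ha h⟩
    · simp only [if_neg ha]
      exact ⟨fun _ => ha, fun _ => dvd_zero 2⟩
  · have h1 : (s.map (Psi φ)).sum = 2 ^ v * (s.map fun a => if P a then r a else 0).sum := by
      rw [← Multiset.sum_map_mul_left]
      congr 1
      refine Multiset.map_congr rfl fun a _ => ?_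
      by_cases ha : P a
      · rw [if_pos ha]; exact hr2 a ha
      · rw [if_neg ha, hzero a ha, mul_zero]
    rw [h1] at hsum
    exact (mul_eq_zero.mp hsum).resolve_left h2v

open scoped Classical in
/-- **Evenness of the number of entries whose order has support `S`**, if this holds for the larger
supports. -/
theorem even_supp {p : ℕ} (hp : p.Coprime m) (hm3 : ∀ q ∈ m.primeFactors, q = 2 ∨ q % 4 = 3)
    {s : Multiset (ZMod m)} (hs : Rel0 p s)
    {S : Finset ℕ} (hS : S ⊆ m.primeFactors) (h2 : 2 ∉ S) (hne : S.Nonempty)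
    (hneg : jacobiSym (-1) (∏ q ∈ S, q) = -1) (hp1 : jacobiSym p (∏ q ∈ S, q) = 1)
    (hj2 : 2 ∣ m → jacobiSym 2 (∏ q ∈ S, q) = 1)
    (hbig : ∀ V : Finset ℕ, S ⊂ V → 2 ∉ V → Even (s.countP (Supp V))) :
    Even (s.countP (Supp S)) := by
  have hpp : ∀ i : PF m, ¬ (i : ℕ) ∣ p := by
    intro i h
    exact not_dvd_of_coprime (Fact.out : (i : ℕ).Prime) hp (Nat.dvd_of_mem_primeFactors i.2) h
  set R : Finset (PF m) := univ.filter
    (fun j : PF m => (j : ℕ) ∉ S ∧ jacobiSym (j : ℕ) (∏ q ∈ S, q) = -1) with hR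
  have hmemR : ∀ j, j ∈ R ↔ ((j : ℕ) ∉ S ∧ jacobiSym (j : ℕ) (∏ q ∈ S, q) = -1) := by
    intro j; rw [hR]; simp
  have htt : ∀ j, j ∉ FS m S → om (FS m S) (tt m j) = jacobiSym (j : ℕ) (∏ q ∈ S, q) := by
    intro j hjS
    unfold tt
    rw [om_inv, om_vec, prod_FS hS]
    intro i hi h
    have hip : (i : ℕ).Prime := Fact.out
    have hjp : (j : ℕ).Prime := Fact.out
    have h3 : i = j := Subtype.ext ((Nat.prime_dvd_prime_iff_eq hip hjp).mp h)
    exact hjS (h3 ▸ hi)
  have hnot2 : ∀ j ∈ R, (j : ℕ) ≠ 2 := by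
    intro j hj h
    have h1 := ((hmemR j).mp hj).2
    have h3 : 2 ∣ m := h ▸ Nat.dvd_of_mem_primeFactors j.2
    have h4 := hj2 h3
    rw [h] at h1
    push_cast at h1
    rw [h4] at h1
    norm_num at h1
  have hG : Gen' m (FS m S) R (om (FS m S)) := by
    refine ⟨?_, ?_, ?_, ?_, ?_, ?_, ?_, ?_, om_par _⟩
    · intro j hj
      rcases hm3 j j.2 with h | h
      · exact absurd h (hnot2 j hj)
      · exact h
    · intro j hj h
      exact ((hmemR j).mp hj).1 (mem_FS.mp h)
    · obtain ⟨q, hq⟩ := hne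
      exact ⟨⟨q, hS hq⟩, mem_FS.mpr hq⟩
    · exact om_ind _
    · intro x
      rw [om_mul, om_sg, prod_FS hS, hneg, neg_one_mul]
    · intro i hi x
      exact om_nn _ i hi (fun h => h2 (h ▸ mem_FS.mp hi)) x
    · intro j hjS hjR x
      rw [om_mul, htt j hjS]
      have h4 : (j : ℕ) ∉ S := fun h => hjS (mem_FS.mpr h)
      have h5 : jacobiSym (j : ℕ) (∏ q ∈ S, q) = 1 := by
        have hcop : IsCoprime ((j : ℕ) : ℤ) ((∏ q ∈ S, q : ℕ) : ℤ) := by
          rw [Nat.isCoprime_iff_coprime]
          apply Nat.Coprime.prod_right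
          intro q hq
          have hjp : (j : ℕ).Prime := Fact.out
          exact (Nat.coprime_primes hjp (Nat.prime_of_mem_primeFactors (hS hq))).mpr
            (fun h => h4 (h ▸ hq))
        rcases jacobiSym.eq_one_or_neg_one (Int.isCoprime_iff_gcd_eq_one.mp hcop) with h | h
        · exact h
        · exact absurd ((hmemR j).mpr ⟨h4, h⟩) hjR
      rw [h5, one_mul]
    · intro j hj x
      have hjS : j ∉ FS m S := fun h => ((hmemR j).mp hj).1 (mem_FS.mp h)
      rw [om_mul, htt j hjS, ((hmemR j).mp hj).2, neg_one_mul]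
  have h1 := even_count' hp hs hG (fun i hi h => h2 (h ▸ mem_FS.mp hi)) (by
    intro x
    rw [om_mul, om_vec _ _ (fun i _ => hpp i), prod_FS hS, hp1, one_mul])
  -- split the count
  set A : ZMod m → Prop := fun a => FS m S ⊆ H916Q.TT m (addOrderOf a) ∧
      H916Q.TT m (addOrderOf a) ⊆ FS m S ∪ R with hA
  have hAS : ∀ a, A a → S ⊆ (addOrderOf a).primeFactors ∧ 2 ∉ (addOrderOf a).primeFactors := by
    intro a ha
    constructor
    · intro q hq
      have h3 : (⟨q, hS hq⟩ : PF m) ∈ H916Q.TT m (addOrderOf a) := ha.1 (mem_FS.mpr hq)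
      rw [mem_TT] at h3
      exact Nat.mem_primeFactors.mpr ⟨Nat.prime_of_mem_primeFactors (hS hq), h3,
        (addOrderOf_pos a).ne'⟩
    · intro h
      have h3 := (Nat.mem_primeFactors.mp h).2.1
      have h2m : 2 ∣ m := h3.trans (addOrderOf_dvd_level a)
      have h4 : (⟨2, Nat.mem_primeFactors.mpr ⟨Nat.prime_two, h2m, NeZero.ne m⟩⟩ : PF m) ∈
          H916Q.TT m (addOrderOf a) := mem_TT.mpr h3
      rcases mem_union.mp (ha.2 h4) with h5 | h5
      · exact h2 (mem_FS.mp h5)
      · exact hnot2 _ h5 rfl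
  have hSA : ∀ a, Supp S a → A a := by
    intro a ha
    have h3 := (TT_eq_iff hS a).mpr ha
    have e1 : univ.filter (fun i : PF m => (i : ℕ) ∈ S) = FS m S := rfl
    rw [e1] at h3
    rw [hA]
    simp only [h3]
    exact ⟨Subset.refl _, subset_union_left⟩
  have hsplit : s.countP A = s.countP (Supp S) + s.countP (fun a => A a ∧ ¬ Supp S a) := by
    have h3 : ∀ s : Multiset (ZMod m), s.countP A =
        s.countP (Supp S) + s.countP (fun a => A a ∧ ¬ Supp S a) := by
      intro s
      induction s using Multiset.induction_on with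
      | empty => simp
      | cons a s ih =>
        rw [Multiset.countP_cons, Multiset.countP_cons, Multiset.countP_cons, ih]
        by_cases h4 : Supp S a
        · rw [if_pos h4, if_pos (hSA a h4), if_neg (fun h => h.2 h4)]; ring
        · by_cases h5 : A a
          · rw [if_neg h4, if_pos h5, if_pos ⟨h5, h4⟩]; ring
          · rw [if_neg h4, if_neg h5, if_neg (fun h => h5 h.1)]; ring
    exact h3 s
  have hrest : Even (s.countP (fun a => A a ∧ ¬ Supp S a)) := by
    rw [Multiset.countP_eq_card_filter]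
    set s' := s.filter (fun a => A a ∧ ¬ Supp S a) with hs'
    have h3 : Even (s'.countP (fun _ => True)) := by
      refine even_of_key (fun b : ZMod m => (addOrderOf b).primeFactors) _ _ _ rfl ?_
        (fun _ _ _ _ _ => Iff.rfl)
      intro K
      rw [hs', Multiset.countP_filter]
      by_cases hK : (S ⊂ K ∧ 2 ∉ K) ∧ ∃ a, Supp K a ∧ A a
      · obtain ⟨hK, b, hbK, hbA⟩ := hK
        have h4 : s.countP (fun a => (addOrderOf a).primeFactors = K ∧ (A a ∧ ¬ Supp S a)) =
            s.countP (Supp K) := by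
          apply Multiset.countP_congr rfl
          intro a _
          simp only [eq_iff_iff]
          constructor
          · exact fun h => h.1
          · intro h
            refine ⟨h, ?_, ?_⟩
            · -- the condition only depends on the support
              have hTT : H916Q.TT m (addOrderOf a) = H916Q.TT m (addOrderOf b) := by
                have hpf : (addOrderOf a).primeFactors = (addOrderOf b).primeFactors := by
                  unfold Supp at h hbK; rw [h, hbK]
                ext i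
                rw [mem_TT, mem_TT]
                have hip : (i : ℕ).Prime := Fact.out
                constructor
                · intro h5
                  have h6 := Nat.mem_primeFactors.mpr ⟨hip, h5, (addOrderOf_pos a).ne'⟩
                  rw [hpf] at h6
                  exact Nat.dvd_of_mem_primeFactors h6
                · intro h5
                  have h6 := Nat.mem_primeFactors.mpr ⟨hip, h5, (addOrderOf_pos b).ne'⟩
                  rw [← hpf] at h6
                  exact Nat.dvd_of_mem_primeFactors h6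
              change FS m S ⊆ H916Q.TT m (addOrderOf a) ∧
                H916Q.TT m (addOrderOf a) ⊆ FS m S ∪ R
              rw [hTT]
              exact hbA
            · intro h5
              unfold Supp at h h5
              rw [h5] at h
              exact hK.1.ne h
        rw [h4]
        exact hbig K hK.1 hK.2
      · have h4 : s.countP (fun a => (addOrderOf a).primeFactors = K ∧ (A a ∧ ¬ Supp S a)) = 0 := by
          rw [Multiset.countP_eq_zero]
          rintro a _ ⟨h5, h6, h7⟩
          apply hK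
          have h8 := hAS a h6
          rw [h5] at h8
          refine ⟨⟨lt_of_le_of_ne h8.1 ?_, h8.2⟩, a, h5, h6⟩
          intro h9
          apply h7
          unfold Supp
          rw [h5, h9]
        rw [h4]; exact Even.zero
    rwa [Multiset.countP_True] at h3
  rw [hsplit] at h1
  exact (Nat.even_add.mp h1).mpr hrest

end Pool.Agent.N214.FT
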