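import Pool.Agent.N214.FT.Odd
import Pool.Agent.N214.FT.Even
import Pool.Agent.H916Y.Chk

/-!
For every set of odd primes congruent to three modulo four: a modular Tate character with one odd
parity, or a parity relation.
-/

set_option linter.unusedSectionVars false

namespace Pool.Agent.N214.FT

open Finset Pool.Agent.H916R2 Pool.Agent.H916T Pool.Agent.H916U Pool.Agent.H916Z Pool.Agent.H916Q
  Pool.Agent.H916Y Pool.Agent.N992

lemma chi_eq_jacobi {k : ℕ} [NeZero k] (hk : k.Prime) {χ : ZMod k → ℤ} (hχ : IsChi k χ) (a : ℤ)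
    (ha : (a : ZMod k) ≠ 0) : χ (a : ZMod k) = jacobiSym a k := by
  have : Fact k.Prime := ⟨hk⟩
  have hu : IsUnit (a : ZMod k) := isUnit_iff_ne_zero.mpr ha
  rw [← jacobiSym.legendreSym.to_jacobiSym, legendreSym]
  by_cases hsq : IsSquare (a : ZMod k)
  · rw [(quadraticChar_one_iff_isSquare ha).mpr hsq]
    exact (hχ.mem _ hu).mp (mem_Hf1.mpr ⟨hu, hsq⟩)
  · rw [quadraticChar_neg_one_iff_not_isSquare.mpr hsq]
    rcases hχ.val _ hu with h | h
    · exact absurd (mem_Hf1.mp ((hχ.mem _ hu).mpr h)).2 hsq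
    · exact h

lemma jacobi_prod' (S : Finset ℕ) (hS : ∀ q ∈ S, q.Prime) (a : ℤ) :
    ∏ q ∈ S, jacobiSym a q = jacobiSym a (∏ q ∈ S, q) := by
  induction S using Finset.induction_on with
  | empty => simp
  | insert q S hq ih =>
    have h1 : NeZero q := ⟨(hS q (mem_insert_self _ _)).ne_zero⟩
    have h2 : NeZero (∏ q ∈ S, q) :=
      ⟨prod_ne_zero_iff.mpr fun j hj => (hS j (mem_insert_of_mem hj)).ne_zero⟩
    rw [prod_insert hq, prod_insert hq, ih (fun j hj => hS j (mem_insert_of_mem hj)),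
      jacobiSym.mul_right]

lemma jacobi_neg_one (S : Finset ℕ) (hS : ∀ q ∈ S, q.Prime ∧ q % 4 = 3) (hodd : Odd S.card) :
    jacobiSym (-1) (∏ q ∈ S, q) = -1 := by
  rw [← jacobi_prod' S (fun q hq => (hS q hq).1)]
  have h1 : ∀ q ∈ S, jacobiSym (-1) q = -1 := by
    intro q hq
    have : Fact q.Prime := ⟨(hS q hq).1⟩
    have h2 : q ≠ 2 := by have := (hS q hq).2; omega
    rw [← jacobiSym.legendreSym.to_jacobiSym, legendreSym.at_neg_one h2]
    exact ZMod.χ₄_nat_three_mod_four (hS q hq).2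
  rw [prod_congr rfl h1, prod_const]
  exact hodd.neg_one_pow

lemma prod_primes_dvd' {S : Finset ℕ} {m : ℕ} (hS : S ⊆ m.primeFactors) : ∏ q ∈ S, q ∣ m :=
  (Finset.prod_dvd_prod_of_subset _ _ _ hS).trans (Nat.prod_primeFactors_dvd m)

section sets

variable {p m : ℕ} [NeZero m]

lemma killer_of_even (hpm : p.Coprime m) {S : Finset ℕ} (hSm : S ⊆ m.primeFactors)
    (hS : ∀ q ∈ S, q.Prime ∧ q % 4 = 3) (hne : S.Nonempty) (heven : Even S.card) :
    Killer p m S := by
  classical
  let n : {q // q ∈ S} → ℕ := fun q => q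
  have hnz : ∀ i, NeZero (n i) := fun i => ⟨(hS i i.2).1.ne_zero⟩
  have hn : Adm n := fun i => Or.inl (hS i i.2)
  have hco : Pairwise (fun i j => (n i).Coprime (n j)) := by
    intro i j hij
    exact (Nat.coprime_primes (hS i i.2).1 (hS j j.2).1).mpr (fun h => hij (Subtype.ext h))
  have hprod : ∏ i, n i = ∏ q ∈ S, q := Finset.prod_coe_sort S (fun q => q)
  obtain ⟨k, hk⟩ := prod_primes_dvd' hSm
  rw [← hprod] at hk
  have hk' : k * ∏ i, n i = m := (mul_comm _ _).trans hk.symm
  have hN0 : ∏ i, n i ≠ 0 := Finset.prod_ne_zero_iff.mpr fun i _ => (hS i i.2).1.ne_zero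
  have : NeZero (∏ i, n i) := ⟨hN0⟩
  have hpN : p.Coprime (∏ i, n i) := Nat.Coprime.coprime_dvd_right (Dvd.intro_left _ hk') hpm
  have huniv : (univ : Finset {q // q ∈ S}).Nonempty := by
    obtain ⟨q, hq⟩ := hne
    exact ⟨⟨q, hq⟩, mem_univ _⟩
  have h1 := killer_even (p := p) hn hco rfl (ZMod.prodEquivPi n hco).symm hpN huniv
    (fun i _ => (hS i i.2).1) (by
      rw [card_univ, Fintype.card_coe]; exact heven)
  have himg : (univ : Finset {q // q ∈ S}).image n = S := by
    ext q
    simp [n]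
  rw [himg] at h1
  exact h1.lift hk' hpm

lemma killer_of_odd (hpm : p.Coprime m) {S : Finset ℕ} (hSm : S ⊆ m.primeFactors)
    (hS : ∀ q ∈ S, q.Prime ∧ q % 4 = 3) (hcard : 1 < S.card)
    (hJ : jacobiSym p (∏ q ∈ S, q) = -1) : Killer p m S := by
  classical
  let n : {q // q ∈ S} → ℕ := fun q => q
  have hnz : ∀ i, NeZero (n i) := fun i => ⟨(hS i i.2).1.ne_zero⟩
  have hn : Adm n := fun i => Or.inl (hS i i.2)
  have hco : Pairwise (fun i j => (n i).Coprime (n j)) := by
    intro i j hij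
    exact (Nat.coprime_primes (hS i i.2).1 (hS j j.2).1).mpr (fun h => hij (Subtype.ext h))
  have hprod : ∏ i, n i = ∏ q ∈ S, q := Finset.prod_coe_sort S (fun q => q)
  obtain ⟨k, hk⟩ := prod_primes_dvd' hSm
  rw [← hprod] at hk
  have hk' : k * ∏ i, n i = m := (mul_comm _ _).trans hk.symm
  have hN0 : ∏ i, n i ≠ 0 := Finset.prod_ne_zero_iff.mpr fun i _ => (hS i i.2).1.ne_zero
  have : NeZero (∏ i, n i) := ⟨hN0⟩
  have hpN : p.Coprime (∏ i, n i) := Nat.Coprime.coprime_dvd_right (Dvd.intro_left _ hk') hpm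
  have hpi : ∀ i, p.Coprime (n i) := fun i =>
    Nat.Coprime.coprime_dvd_right (Finset.dvd_prod_of_mem n (mem_univ i)) hpN
  have hc : ∀ i, ∃ χ : ZMod (n i) → ℤ, IsChi (n i) χ := fun i => exists_chi (n i) (hn i)
  choose χ hχ using hc
  let u : (∀ i, ZMod (n i))ˣ := MulEquiv.piUnits.symm (fun i => ZMod.unitOfCoprime p (hpi i))
  have hu : ∀ i, (u : ∀ i, ZMod (n i)) i = (p : ZMod (n i)) := by
    intro i
    have : (u : ∀ i, ZMod (n i)) i = ((ZMod.unitOfCoprime p (hpi i) : (ZMod (n i))ˣ) : ZMod (n i)) :=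
      rfl
    rw [this, ZMod.coe_unitOfCoprime]
  have h1 := killer_odd (p := p) hn hco rfl (ZMod.prodEquivPi n hco).symm hpN
    (fun i => (hS i i.2).1) hχ (S := univ) (by
      rw [card_univ, Fintype.card_coe]; exact hcard) u hu (by
      have h2 : ∀ i : {q // q ∈ S}, χ i ((u : ∀ i, ZMod (n i)) i) = jacobiSym p (i : ℕ) := by
        intro i
        have hfact : Fact (n i).Prime := ⟨(hS i i.2).1⟩
        rw [hu i]
        have h3 := chi_eq_jacobi (hS i i.2).1 (hχ i) (p : ℤ) (by
          push_cast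
          intro h0
          have h4 := (hpi i)
          rw [ZMod.natCast_eq_zero_iff] at h0
          have h5 := Nat.dvd_gcd h0 (dvd_refl (n i))
          rw [h4.gcd_eq_one] at h5
          exact (hS i i.2).1.one_lt.ne' (Nat.dvd_one.mp h5))
        push_cast at h3
        exact h3
      rw [prod_congr rfl fun i _ => h2 i]
      rw [Finset.prod_coe_sort S (fun q => jacobiSym p q), jacobi_prod' S (fun q hq => (hS q hq).1)]
      exact hJ)
  have himg : (univ : Finset {q // q ∈ S}).image n = S := by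
    ext q
    simp [n]
  rw [himg] at h1
  exact h1.lift hk' hpm

lemma killer_of_four (hpm : p.Coprime m) (h4m : 4 ∣ m) {S : Finset ℕ} (hSm : S ⊆ m.primeFactors)
    (hS : ∀ q ∈ S, q.Prime ∧ q % 4 = 3) (hne : S.Nonempty) (hodd : Odd S.card)
    (hJ : jacobiSym 2 (∏ q ∈ S, q) = -1) : Killer p m S := by
  classical
  have h2S : 2 ∉ S := fun h => by have := (hS 2 h).2; omega
  let n : {q // q ∈ insert 2 S} → ℕ := fun q => if (q : ℕ) = 2 then 4 else q
  let i4 : {q // q ∈ insert 2 S} := ⟨2, mem_insert_self 2 S⟩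
  have hn4 : n i4 = 4 := if_pos rfl
  have hnq : ∀ i : {q // q ∈ insert 2 S}, i ≠ i4 → n i = i ∧ (i : ℕ) ∈ S := by
    intro i hi
    have h1 : (i : ℕ) ≠ 2 := fun h => hi (Subtype.ext h)
    exact ⟨if_neg h1, (mem_insert.mp i.2).resolve_left h1⟩
  have hn : Adm n := by
    intro i
    by_cases hi : i = i4
    · right; rw [hi]; exact hn4
    · left; rw [(hnq i hi).1]; exact hS _ (hnq i hi).2
  have hnz : ∀ i, NeZero (n i) := fun i => ⟨by
    rcases hn i with h | h
    · exact h.1.ne_zero
    · omega⟩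
  have hco : Pairwise (fun i j => (n i).Coprime (n j)) := by
    have h24 : ∀ i, i ≠ i4 → (n i4).Coprime (n i) := by
      intro i hi
      rw [hn4, (hnq i hi).1]
      have h1 := hS _ (hnq i hi).2
      have h2 : Nat.Coprime 2 (i : ℕ) := (Nat.coprime_primes Nat.prime_two h1.1).mpr (by omega)
      exact Nat.Coprime.pow_left 2 h2
    intro i j hij
    by_cases hi : i = i4
    · subst hi
      exact h24 j (Ne.symm hij)
    · by_cases hj : j = i4
      · subst hj
        exact (h24 i hij).symm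
      · change (n i).Coprime (n j)
        rw [(hnq i hi).1, (hnq j hj).1]
        exact (Nat.coprime_primes (hS _ (hnq i hi).2).1 (hS _ (hnq j hj).2).1).mpr
          (fun h => hij (Subtype.ext h))
  have hdvd : ∏ i, n i ∣ m := by
    apply Fintype.prod_dvd_of_isRelPrime
    · intro i j hij
      exact Nat.coprime_iff_isRelPrime.mp (hco hij)
    · intro i
      by_cases hi : i = i4
      · rw [hi, hn4]; exact h4m
      · rw [(hnq i hi).1]; exact Nat.dvd_of_mem_primeFactors (hSm (hnq i hi).2)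
  obtain ⟨k, hk⟩ := hdvd
  have hk' : k * ∏ i, n i = m := (mul_comm _ _).trans hk.symm
  have hN0 : ∏ i, n i ≠ 0 := Finset.prod_ne_zero_iff.mpr fun i _ => (hnz i).ne
  have : NeZero (∏ i, n i) := ⟨hN0⟩
  have hpN : p.Coprime (∏ i, n i) := Nat.Coprime.coprime_dvd_right (Dvd.intro_left _ hk') hpm
  have hc : ∀ i, ∃ χ : ZMod (n i) → ℤ, IsChi (n i) χ := fun i => exists_chi (n i) (hn i)
  choose χ hχ using hc
  set U : Finset {q // q ∈ insert 2 S} := univ.erase i4 with hU
  have himg : U.image n = S := by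
    ext q
    rw [mem_image]
    constructor
    · rintro ⟨i, hi, rfl⟩
      have h1 := hnq i (ne_of_mem_erase hi)
      rw [h1.1]; exact h1.2
    · intro hq
      refine ⟨⟨q, mem_insert_of_mem hq⟩, ?_, ?_⟩
      · rw [hU, mem_erase]
        refine ⟨fun h => ?_, mem_univ _⟩
        have h1 : q = 2 := congrArg Subtype.val h
        exact h2S (h1 ▸ hq)
      · exact if_neg (fun h : q = 2 => h2S (h ▸ hq))
  have hUcard : U.card = S.card := by
    rw [hU, card_erase_of_mem (mem_univ _), card_univ, Fintype.card_coe,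
      card_insert_of_notMem h2S]
    rfl
  have hUne : U.Nonempty := by
    rw [← card_pos, hUcard]; exact hne.card_pos
  have h1 := killer_four (p := p) hn hco rfl (ZMod.prodEquivPi n hco).symm hpN hχ (U := U) hUne
    (fun i hi => by
      have h1 := hnq i (ne_of_mem_erase hi)
      rw [h1.1]; exact (hS _ h1.2).1) (by rw [hUcard]; exact hodd) hn4 (by
      have h2 : ∀ i ∈ U, χ i 2 = jacobiSym 2 (n i) := by
        intro i hi
        have h1 := hnq i (ne_of_mem_erase hi)
        have hpr : (n i).Prime := by rw [h1.1]; exact (hS _ h1.2).1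
        have hmod : n i % 4 = 3 := by rw [h1.1]; exact (hS _ h1.2).2
        have hfact : Fact (n i).Prime := ⟨hpr⟩
        have h3 := chi_eq_jacobi hpr (hχ i) (2 : ℤ) (by
          push_cast
          exact two_ne_zero_zmod hmod)
        push_cast at h3
        exact h3
      rw [prod_congr rfl h2]
      have h3 : ∏ i ∈ U, jacobiSym 2 (n i) = ∏ q ∈ U.image n, jacobiSym 2 q := by
        rw [prod_image]
        intro i _ j _ h
        exact inj_n hn hco h
      rw [h3, himg, jacobi_prod' S (fun q hq => (hS q hq).1)]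
      exact hJ)
  rw [himg] at h1
  exact h1.lift hk' hpm

lemma dead_single {q : ℕ} (hq : q.Prime) (h3 : q % 4 = 3) (hJ : jacobiSym p q = -1) :
    Dead p {q} := by
  have : Fact q.Prime := ⟨hq⟩
  refine ⟨q / 2, ?_⟩
  rw [prod_singleton]
  have h1 : ((p : ℤ) : ZMod q) ^ (q / 2) = -1 := by
    rw [← legendreSym.eq_pow, jacobiSym.legendreSym.to_jacobiSym, hJ]
    push_cast; rfl
  rw [← ZMod.natCast_eq_zero_iff]
  push_cast at h1 ⊢
  rw [h1]; ring

lemma coprime_prod (hpm : p.Coprime m) {S : Finset ℕ} (hSm : S ⊆ m.primeFactors) :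
    p.Coprime (∏ q ∈ S, q) := Nat.Coprime.coprime_dvd_right (prod_primes_dvd' hSm) hpm

lemma jacobi_pm (hpm : p.Coprime m) {S : Finset ℕ} (hSm : S ⊆ m.primeFactors) :
    jacobiSym p (∏ q ∈ S, q) = 1 ∨ jacobiSym p (∏ q ∈ S, q) = -1 := by
  apply jacobiSym.eq_one_or_neg_one
  have h := coprime_prod hpm hSm
  exact_mod_cast h

open scoped Classical in
/-- the dichotomy -/
theorem dichotomy (hp : p.Prime) (hpm : p.Coprime m)
    (hm3 : ∀ q ∈ m.primeFactors, q = 2 ∨ q % 4 = 3) (h4 : p = 2 ∨ 4 ∣ m) {S : Finset ℕ}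
    (hSm : S ⊆ m.primeFactors) (hne : S.Nonempty) (h2 : 2 ∉ S) (hD : ¬ Dead p S) :
    Killer p m S ∨ ∀ s : Multiset (ZMod m), Rel0 p s →
      (∀ V : Finset ℕ, S ⊂ V → 2 ∉ V → Even (s.countP (Supp V))) → Even (s.countP (Supp S)) := by
  have hS : ∀ q ∈ S, q.Prime ∧ q % 4 = 3 := by
    intro q hq
    refine ⟨Nat.prime_of_mem_primeFactors (hSm hq), ?_⟩
    rcases hm3 q (hSm hq) with h | h
    · rw [h] at hq; exact absurd hq h2
    · exact h
  rcases Nat.even_or_odd S.card with heven | hodd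
  · exact Or.inl (killer_of_even hpm hSm hS hne heven)
  · rcases jacobi_pm hpm hSm with hJ | hJ
    · have hneg := jacobi_neg_one S hS hodd
      rcases h4 with rfl | h4m
      · right
        intro s hs hV
        refine even_supp hpm hm3 hs hSm h2 hne hneg hJ ?_ hV
        intro h2m
        exfalso
        have h5 : 2 ∣ Nat.gcd 2 m := Nat.dvd_gcd dvd_rfl h2m
        rw [hpm.gcd_eq_one] at h5
        omega
      · have hcop2 : Int.gcd 2 (((∏ q ∈ S, q : ℕ)) : ℤ) = 1 := by
          have h5 : Nat.Coprime 2 (∏ q ∈ S, q) := by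
            apply Nat.Coprime.prod_right
            intro q hq
            exact (Nat.coprime_primes Nat.prime_two (hS q hq).1).mpr (fun h => h2 (h ▸ hq))
          exact_mod_cast h5
        rcases jacobiSym.eq_one_or_neg_one hcop2 with hJ2 | hJ2
        · right
          intro s hs hV
          exact even_supp hpm hm3 hs hSm h2 hne hneg hJ (fun _ => hJ2) hV
        · left
          exact killer_of_four hpm h4m hSm hS hne hodd hJ2
    · by_cases hcard : 1 < S.card
      · exact Or.inl (killer_of_odd hpm hSm hS hcard hJ)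
      · exfalso
        have h1 : S.card = 1 := by
          have := hne.card_pos
          omega
        obtain ⟨q, rfl⟩ := Finset.card_eq_one.mp h1
        rw [prod_singleton] at hJ
        exact hD (dead_single (hS q (mem_singleton_self q)).1 (hS q (mem_singleton_self q)).2 hJ)

end sets

end Pool.Agent.N214.FT
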