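import Pool.Agent.N214.FT.Kil

/-!
The Tate characters of Fermat varieties whose degree has only odd prime factors congruent to three
modulo four.
-/

set_option linter.unusedSectionVars false

namespace Pool.Agent.N214.FT

open Finset Pool.Agent.H916R2 Pool.Agent.H916T Pool.Agent.H916U Pool.Agent.H916Z Pool.Agent.H916Q
  Pool.Agent.H916Y Pool.Agent.N992

variable {p m : ℕ}

/-- the base family: surfaces, standard characters, modular Tate characters -/
abbrev MBase (p M : ℕ) (t : Multiset (ZMod M)) : Prop :=
  SurfaceTate p M t ∨ (∃ q : ℕ, q.Prime ∧ q ∣ M ∧ Standard q M t) ∨ ModularTate p M t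

lemma isTate_msum [NeZero m] (hpm : p.Coprime m) (l : Multiset (Multiset (ZMod m)))
    (hl : ∀ x ∈ l, IsTate p m x) : IsTate p m l.sum := by
  induction l using Multiset.induction_on with
  | empty => simpa using isTate_zero hpm
  | cons a l ih =>
    rw [Multiset.sum_cons]
    exact isTate_add hpm (hl a (Multiset.mem_cons_self _ _))
      (ih fun x hx => hl x (Multiset.mem_cons_of_mem hx))

lemma par_msum [NeZero m] (K : Finset ℕ) (l : Multiset (Multiset (ZMod m))) :
    ((l.sum).map (par K)).sum = (l.map fun x => (x.map (par K)).sum).sum := by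
  induction l using Multiset.induction_on with
  | empty => simp
  | cons a l ih => rw [Multiset.sum_cons, Multiset.map_add, Multiset.sum_add, ih, Multiset.map_cons,
      Multiset.sum_cons]

lemma dead_mono {S V : Finset ℕ} (h : S ⊆ V) (hV : Dead p V) : Dead p S := by
  obtain ⟨j, hj⟩ := hV
  exact ⟨j, (Finset.prod_dvd_prod_of_subset _ _ _ h).trans hj⟩

lemma supp_sub [NeZero m] {S : Finset ℕ} {a : ZMod m} (h : Supp S a) : S ⊆ m.primeFactors := by
  unfold Supp at h
  rw [← h]
  exact Nat.primeFactors_mono (addOrderOf_dvd_level a) (NeZero.ne m)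

open scoped Classical in
theorem eliminate [NeZero m] (hp : p.Prime) (hpm : p.Coprime m)
    (hm3 : ∀ q ∈ m.primeFactors, q = 2 ∨ q % 4 = 3) (h4 : p = 2 ∨ 4 ∣ m)
    {s : Multiset (ZMod m)} (hs : IsTate p m s) (c : ℕ) :
    ∃ l : Multiset (Multiset (ZMod m)), (∀ x ∈ l, ModularTate p m x) ∧
      ∀ S : Finset ℕ, S.Nonempty → 2 ∉ S → ¬ Dead p S → m.primeFactors.card + 1 ≤ S.card + c →
        Even ((s + l.sum).countP (Supp S)) := by
  induction c with
  | zero =>
    refine ⟨0, by simp, ?_⟩
    intro S _ _ _ hc
    have h1 : (s + (0 : Multiset (Multiset (ZMod m))).sum).countP (Supp S) = 0 := by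
      rw [Multiset.countP_eq_zero]
      intro a _ ha
      have h2 := Finset.card_le_card (supp_sub ha)
      omega
    rw [h1]; exact Even.zero
  | succ c ih =>
    obtain ⟨l, hl, hl2⟩ := ih
    have hT : IsTate p m (s + l.sum) :=
      isTate_add hpm hs (isTate_msum hpm l fun x hx => (hl x hx).1)
    have hrel : Rel0 p (s + l.sum) := fun t => hT.W_sum hpm t
    set B : Finset (Finset ℕ) := m.primeFactors.powerset.filter (fun S => S.Nonempty ∧ 2 ∉ S ∧
      ¬ Dead p S ∧ m.primeFactors.card + 1 = S.card + (c + 1) ∧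
      ¬ Even ((s + l.sum).countP (Supp S))) with hB
    have hkill : ∀ S ∈ B, Killer p m S := by
      intro S hS
      rw [hB, mem_filter, mem_powerset] at hS
      obtain ⟨hSm, hne, h2, hD, hc, hodd⟩ := hS
      rcases dichotomy hp hpm hm3 h4 hSm hne h2 hD with h | h
      · exact h
      · exfalso
        apply hodd
        apply h _ hrel
        intro V hV hV2
        have h5 := Finset.card_lt_card hV
        exact hl2 V (hne.mono hV.1) hV2 (fun h6 => hD (dead_mono hV.1 h6)) (by omega)
    choose! M hM1 hM2 hM3 using hkill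
    refine ⟨l + B.val.map M, ?_, ?_⟩
    · intro x hx
      rcases Multiset.mem_add.mp hx with hx | hx
      · exact hl x hx
      · obtain ⟨S, hS, rfl⟩ := Multiset.mem_map.mp hx
        exact hM1 S hS
    · intro V hVne hV2 hVD hc
      rw [Multiset.sum_add, ← add_assoc, even_iff_par, Multiset.map_add, Multiset.sum_add,
        par_msum, Multiset.map_map]
      have h5 : (B.val.map ((fun x : Multiset (ZMod m) => (x.map (par V)).sum) ∘ M)).sum =
          ∑ S ∈ B, ((M S).map (par V)).sum := rfl
      rw [h5]
      by_cases hVB : V ∈ B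
      · have h6 : ∑ S ∈ B, ((M S).map (par V)).sum = ((M V).map (par V)).sum := by
          apply Finset.sum_eq_single_of_mem V hVB
          intro S hS hSV
          rw [← even_iff_par]
          apply hM3 S hS V hVne hV2
          intro hsub
          apply hSV
          have hS' := (mem_filter.mp hS).2.2.2.2.1
          have hV' := (mem_filter.mp hVB).2.2.2.2.1
          exact (Finset.eq_of_subset_of_card_le hsub (by omega)).symm
        rw [h6, (odd_iff_par V (M V)).mp (hM2 V hVB)]
        have h7 := (mem_filter.mp hVB).2.2.2.2.2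
        rw [Nat.not_even_iff_odd, odd_iff_par] at h7
        rw [h7]; decide
      · have h6 : ∑ S ∈ B, ((M S).map (par V)).sum = 0 := by
          apply Finset.sum_eq_zero
          intro S hS
          rw [← even_iff_par]
          apply hM3 S hS V hVne hV2
          intro hsub
          have hS' := (mem_filter.mp hS).2.2.2.2.1
          have h8 : V = S := Finset.eq_of_subset_of_card_le hsub (by omega)
          exact hVB (h8 ▸ hS)
        rw [h6, add_zero, ← even_iff_par]
        by_cases hVc : m.primeFactors.card + 1 ≤ V.card + c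
        · exact hl2 V hVne hV2 hVD hVc
        · by_contra hodd
          have hVm : V ⊆ m.primeFactors := by
            have h9 : 0 < (s + l.sum).countP (Supp V) := by
              rw [Nat.not_even_iff_odd] at hodd
              exact hodd.pos
            obtain ⟨a, _, ha⟩ := Multiset.countP_pos.mp h9
            exact supp_sub ha
          apply hVB
          rw [hB, mem_filter, mem_powerset]
          exact ⟨hVm, hVne, hV2, hVD, by omega, hodd⟩

lemma remove_base {M : ℕ} {base : Multiset (ZMod M) → Prop}
    (l : Multiset (Multiset (ZMod M))) (hl : ∀ x ∈ l, base (x.map Neg.neg)) :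
    ∀ s : Multiset (ZMod M), H916T.Generated M base (s + l.sum) →
      H916T.Generated M base s := by
  induction l using Multiset.induction_on with
  | empty => intro s h; simpa using h
  | cons a l ih =>
    intro s h
    apply cancel_multi a s
    rw [← add_assoc]
    have ha := hl a (Multiset.mem_cons_self _ _)
    refine H916T.Generated.join _ _ ?_ (H916T.Generated.ofBase _ ha)
    apply ih (fun x hx => hl x (Multiset.mem_cons_of_mem hx))
    rw [Multiset.sum_cons] at h
    rw [add_assoc]
    exact h

open scoped Classical in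
theorem main_aux (hp : p.Prime) (hm : 0 < m) (hpm : p.Coprime m)
    (hm3 : ∀ q : ℕ, q.Prime → q ∣ m → q = 2 ∨ q % 4 = 3) (h4 : p = 2 ∨ 4 ∣ m)
    {s : Multiset (ZMod m)} (hs : IsTate p m s) (hne : s ≠ 0) :
    ∃ N : ℕ, 0 < N ∧ p.Coprime N ∧ ∀ M : ℕ, N * m = M →
      H916T.Generated M (MBase p M) (s.map (iota N : ZMod m → ZMod M)) := by
  have hz : NeZero m := ⟨hm.ne'⟩
  obtain ⟨l, hl, hl2⟩ := eliminate hp hpm
    (fun q hq => hm3 q (Nat.prime_of_mem_primeFactors hq) (Nat.dvd_of_mem_primeFactors hq)) h4 hs
    (m.primeFactors.card + 1)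
  have hT : IsTate p m (s + l.sum) :=
    isTate_add hpm hs (isTate_msum hpm l fun x hx => (hl x hx).1)
  have hne' : s + l.sum ≠ 0 := by
    intro h
    have h2 := congrArg Multiset.card h
    rw [Multiset.card_add, Multiset.card_zero] at h2
    exact hne (Multiset.card_eq_zero.mp (by omega))
  have hpar : ∀ a : ZMod m, Even ((s + l.sum).countP (fun b => Relation.EqvGen (Link p) a b)) := by
    refine link_parity2 hT.1 hT.2.1 (fun S => S.Nonempty ∧ Dead p S) ?_ ?_
    · rintro S ⟨hSne, hSD⟩ a ha
      exact dead_elem S hSne hSD a ha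
    · intro S hSne h2S hSD
      exact hl2 S hSne h2S (fun h => hSD ⟨hSne, h⟩) (by omega)
  obtain ⟨N, hN, hpN, H⟩ := parity_main hp hm hpm hT hne' hpar
  refine ⟨N, hN, hpN, ?_⟩
  intro M hM
  have h2 := H M hM
  have hM0 : 0 < M := by rw [← hM]; exact Nat.mul_pos hN hm
  have hzM : NeZero M := ⟨hM0.ne'⟩
  have hpM : p.Coprime M := by rw [← hM]; exact Nat.Coprime.mul_right hpN hpm
  rw [Multiset.map_add, map_multiset_sum] at h2
  refine remove_base (l.map fun x => x.map (iota N : ZMod m → ZMod M)) ?_ _
    (generated_mono (base := ZBase p M) ?_ h2)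
  · intro x hx
    obtain ⟨y, hy, rfl⟩ := Multiset.mem_map.mp hx
    exact Or.inr (Or.inr (((hl y hy).lift hM hpM).neg hpM))
  · rintro t (ht | ht)
    · exact Or.inl ht
    · exact Or.inr (Or.inl ht)

theorem main (hp : p.Prime) (hm : 0 < m) (hpm : p.Coprime m)
    (hm3 : ∀ q : ℕ, q.Prime → q ∣ m → q = 2 ∨ q % 4 = 3)
    {s : Multiset (ZMod m)} (hs : IsTate p m s) (hne : s ≠ 0) :
    ∃ N : ℕ, 0 < N ∧ p.Coprime N ∧ ∀ M : ℕ, N * m = M →
      H916T.Generated M (MBase p M) (s.map (iota N : ZMod m → ZMod M)) := by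
  by_cases hp2 : p = 2
  · exact main_aux hp hm hpm hm3 (Or.inl hp2) hs hne
  · have hz : NeZero m := ⟨hm.ne'⟩
    have h4m : 0 < 4 * m := by omega
    have hz4 : NeZero (4 * m) := ⟨h4m.ne'⟩
    have hp4 : p.Coprime 4 := by
      have h1 : p.Coprime 2 := (Nat.coprime_primes hp Nat.prime_two).mpr hp2
      exact Nat.Coprime.mul_right h1 h1
    have hp4m : p.Coprime (4 * m) := Nat.Coprime.mul_right hp4 hpm
    obtain ⟨N, hN, hpN, H⟩ := main_aux (m := 4 * m) hp h4m hp4m (by
      intro q hq hqm
      rcases (hq.dvd_mul).mp hqm with h | h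
      · left
        have h2 : q ∣ 2 ^ 2 := h
        exact (Nat.prime_dvd_prime_iff_eq hq Nat.prime_two).mp (hq.dvd_of_dvd_pow h2)
      · exact hm3 q hq h) (Or.inr (Dvd.intro _ rfl)) (isTate_iota (k := 4) rfl hp4m hs) (by
      intro h
      exact hne (Multiset.map_eq_zero.mp h))
    refine ⟨N * 4, by omega, Nat.Coprime.mul_right hpN hp4, ?_⟩
    intro M hM
    have hM1 : N * (4 * m) = M := by rw [← hM]; ring
    have h3 := H M hM1
    have hM0 : 0 < M := by rw [← hM1]; exact Nat.mul_pos hN h4m
    have hzM : NeZero M := ⟨hM0.ne'⟩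
    rw [Multiset.map_map] at h3
    have h4 : ((iota N : ZMod (4 * m) → ZMod M) ∘ (iota 4 : ZMod m → ZMod (4 * m))) =
        (iota (N * 4) : ZMod m → ZMod M) := by
      funext a
      simp only [Function.comp_apply]
      rw [iota_comp hM1]
    rw [h4] at h3
    exact h3

end Pool.Agent.N214.FT
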