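import Pool.Agent.H916Y.Conv
import Pool.Agent.N992.Level

/-!
The parities of the supports as an odd distribution, and the supports of products of half systems.
-/

set_option linter.unusedSectionVars false

namespace Pool.Agent.N214.FT

open Finset Pool.Agent.H916R2 Pool.Agent.H916T Pool.Agent.H916U Pool.Agent.H916Z Pool.Agent.H916Q
  Pool.Agent.H916Y Pool.Agent.N992

/-- the parity function of the support `K` -/
noncomputable def par {N : ℕ} (K : Finset ℕ) (a : ZMod N) : ZMod 2 := if Supp K a then 1 else 0

lemma par_congr {N : ℕ} {K : Finset ℕ} {a b : ZMod N} (h : addOrderOf a = addOrderOf b) :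
    par K a = par K b := by
  have h1 : Supp K a ↔ Supp K b := by unfold Supp; rw [h]
  unfold par
  by_cases hb : Supp K b
  · rw [if_pos hb, if_pos (h1.mpr hb)]
  · rw [if_neg hb, if_neg (fun h' => hb (h1.mp h'))]

lemma par_sum {N : ℕ} (K : Finset ℕ) (s : Multiset (ZMod N)) :
    (s.map (par K)).sum = ((s.countP (Supp K) : ℕ) : ZMod 2) := by
  induction s using Multiset.induction_on with
  | empty => simp
  | cons a s ih =>
    rw [Multiset.map_cons, Multiset.sum_cons, ih, Multiset.countP_cons]
    unfold par
    split_ifs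
    · push_cast; ring
    · push_cast; ring

lemma even_iff_par {N : ℕ} (K : Finset ℕ) (s : Multiset (ZMod N)) :
    Even (s.countP (Supp K)) ↔ (s.map (par K)).sum = 0 := by
  rw [par_sum, ZMod.natCast_eq_zero_iff_even]

lemma odd_iff_par {N : ℕ} (K : Finset ℕ) (s : Multiset (ZMod N)) :
    Odd (s.countP (Supp K)) ↔ (s.map (par K)).sum = 1 := by
  rw [par_sum, ZMod.natCast_eq_one_iff_odd]

lemma two_zero (x : ZMod 2) : x + x = 0 := by
  revert x; decide

lemma par_eq {N : ℕ} {K P : Finset ℕ} {a : ZMod N} (h : (addOrderOf a).primeFactors = P) :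
    par K a = if P = K then 1 else 0 := by
  have h1 : Supp K a ↔ P = K := by unfold Supp; rw [h]
  unfold par
  by_cases hb : P = K
  · rw [if_pos hb, if_pos (h1.mpr hb)]
  · rw [if_neg hb, if_neg (fun h' => hb (h1.mp h'))]

lemma par_neg {N : ℕ} (K : Finset ℕ) (a : ZMod N) : par K (-a) = par K a :=
  par_congr (addOrderOf_neg a)

lemma par_zero {N : ℕ} {K : Finset ℕ} (hK : K.Nonempty) : par K (0 : ZMod N) = 0 := by
  unfold par
  rw [if_neg]
  unfold Supp
  rw [addOrderOf_zero, Nat.primeFactors_one]
  exact fun h => hK.ne_empty h.symm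

lemma par_of_two {N : ℕ} {K : Finset ℕ} (h2 : 2 ∉ K) {a : ZMod N} [NeZero N]
    (ha : 2 ∣ addOrderOf a) : par K a = 0 := by
  unfold par
  rw [if_neg]
  unfold Supp
  rintro rfl
  exact h2 (Nat.mem_primeFactors.mpr ⟨Nat.prime_two, ha, (addOrderOf_pos a).ne'⟩)

variable {N : ℕ} [NeZero N]

lemma par_half {K : Finset ℕ} (hK : K.Nonempty) (h2 : 2 ∉ K) {a : ZMod N} (ha : a + a = 0) :
    par K a = 0 := by
  by_cases h0 : a = 0
  · rw [h0]; exact par_zero hK
  · apply par_of_two h2
    have h1 : addOrderOf a ∣ 2 := addOrderOf_dvd_of_nsmul_eq_zero (by rw [two_nsmul]; exact ha)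
    rcases (Nat.dvd_prime Nat.prime_two).mp h1 with h | h
    · exact absurd (AddMonoid.addOrderOf_eq_one_iff.mp h) h0
    · rw [h]

lemma par_dist_two {K : Finset ℕ} (_hK : K.Nonempty) (h2 : 2 ∉ K) {d : ℕ} (hd : 2 * d = N)
    (a : ZMod N) : par K a + par K (a + (d : ZMod N)) = par K (2 * a) := by
  have h2d : (2 : ZMod N) * (d : ZMod N) = 0 := by
    have : ((2 * d : ℕ) : ZMod N) = 0 := by rw [hd]; simp
    simpa using this
  have hdo : (d : ZMod N) + (d : ZMod N) = 0 := by rw [← two_mul]; exact h2d
  have hN := NeZero.pos N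
  have hd0 : (d : ZMod N) ≠ 0 := H916Y.half_ne_zero hd
  -- odd order
  have hodd : ∀ x : ZMod N, ¬ 2 ∣ addOrderOf x → par K (2 * x) = par K x := by
    intro x hx
    have h1 : addOrderOf (2 * x) = addOrderOf x := by
      have h3 : (2 : ZMod N) * x = (2 : ℕ) • x := by rw [nsmul_eq_mul]; push_cast; rfl
      rw [h3, addOrderOf_nsmul' x two_ne_zero]
      have h4 : Nat.gcd (addOrderOf x) 2 = 1 := by
        rw [Nat.gcd_comm]; exact (Nat.prime_two.coprime_iff_not_dvd).mpr hx
      rw [h4, Nat.div_one]
    exact par_congr h1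
  have hev : ∀ x : ZMod N, ¬ 2 ∣ addOrderOf x → 2 ∣ addOrderOf (x + (d : ZMod N)) := by
    intro x hx
    by_contra h
    set o := addOrderOf x * addOrderOf (x + (d : ZMod N)) with ho
    have h3 : o • x = 0 := by
      rw [ho, mul_comm, mul_nsmul', addOrderOf_nsmul_eq_zero, smul_zero]
    have h4 : o • (x + (d : ZMod N)) = 0 := by
      rw [ho, mul_nsmul', addOrderOf_nsmul_eq_zero, smul_zero]
    have h5 : o • (d : ZMod N) = 0 := by
      rw [smul_add, h3, zero_add] at h4; exact h4
    have h6 : ¬ 2 ∣ o := by
      rw [ho, Nat.prime_two.dvd_mul, not_or]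
      exact ⟨hx, h⟩
    obtain ⟨r, hr⟩ : ∃ r, o = 2 * r + 1 := ⟨o / 2, by omega⟩
    rw [hr, nsmul_eq_mul] at h5
    push_cast at h5
    apply hd0
    linear_combination h5 - (r : ZMod N) * h2d
  by_cases ha : 2 ∣ addOrderOf a
  · by_cases hb : 2 ∣ addOrderOf (a + (d : ZMod N))
    · -- both even
      rw [par_of_two h2 ha, par_of_two h2 hb, add_zero, par_of_two h2]
      by_contra hc
      set g := addOrderOf (2 * a) with hg
      have h3 : (2 : ZMod N) * ((g : ZMod N) * a) = 0 := by
        have h4 : g • (2 * a) = 0 := addOrderOf_nsmul_eq_zero _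
        rw [nsmul_eq_mul] at h4
        linear_combination h4
      by_cases h4 : (g : ZMod N) * a = 0
      · apply hc
        rw [← nsmul_eq_mul] at h4
        exact ha.trans (addOrderOf_dvd_of_nsmul_eq_zero h4)
      · have h5 : (g : ZMod N) * a = (d : ZMod N) :=
          half_unique (by rw [← two_mul]; exact h3) hdo h4 hd0
        apply hc
        refine hb.trans (addOrderOf_dvd_of_nsmul_eq_zero ?_)
        obtain ⟨r, hr⟩ : ∃ r, g = 2 * r + 1 := ⟨g / 2, by omega⟩
        rw [nsmul_eq_mul, mul_add, h5]
        have h6 : (g : ZMod N) = 2 * (r : ZMod N) + 1 := by rw [hr]; push_cast; ring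
        rw [h6]
        linear_combination ((r : ZMod N) + 1) * h2d
    · have h3 := hodd _ hb
      have h4 : (2 : ZMod N) * (a + (d : ZMod N)) = 2 * a := by linear_combination h2d
      rw [h4] at h3
      rw [h3, par_of_two h2 ha, zero_add]
  · rw [hodd a ha, par_of_two h2 (hev a ha), add_zero]

/-- the parity functions are odd distributions -/
lemma par_dist {K : Finset ℕ} (hK : K.Nonempty) (h2 : 2 ∉ K) :
    OddDist (fun a : ZMod N => par K a) where
  neg := fun a => by
    rw [par_neg]
    have := two_zero (par K a)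
    exact (neg_eq_of_add_eq_zero_left this).symm
  half := fun a ha => par_half hK h2 ha
  dist := fun q d hq hqd a => by
    by_cases hq2 : q = 2
    · subst hq2
      have h := par_dist_two hK h2 hqd a
      rw [sum_range_succ, sum_range_one]
      push_cast
      simpa using h
    have hN : 0 < N := NeZero.pos N
    have hd : 0 < d := Nat.pos_of_ne_zero (by rintro rfl; simp at hqd; omega)
    have hqd0 : ((q : ℕ) : ZMod N) * (d : ZMod N) = 0 := by
      have : ((q * d : ℕ) : ZMod N) = 0 := by rw [hqd]; simp
      simpa using this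
    by_cases ha : (q : ZMod N) * a = 0
    · rw [ha, par_zero hK]
      have hmv : N ∣ q * a.val := by
        rw [← ZMod.natCast_eq_zero_iff]; push_cast; rw [ZMod.natCast_zmod_val]; exact ha
      have hdv : d ∣ a.val := by
        have hmv' : q * d ∣ q * a.val := by rw [hqd]; exact hmv
        exact Nat.dvd_of_mul_dvd_mul_left hq.pos hmv'
      obtain ⟨j, hj⟩ := hdv
      have haj : a = 0 + (j : ZMod N) * (d : ZMod N) := by
        rw [zero_add]
        calc a = ((a.val : ℕ) : ZMod N) := (ZMod.natCast_zmod_val a).symm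
          _ = _ := by rw [hj]; push_cast; ring
      conv_lhs => rw [haj]
      rw [coset_sum_shift_mul (fun x => par K x) hqd 0 j]
      obtain ⟨r, hr⟩ : ∃ r, q = 2 * r + 1 := by
        have := hq.eq_two_or_odd
        exact ⟨q / 2, by omega⟩
      refine Finset.sum_involution (fun i _ => if i = 0 then 0 else q - i) ?_ ?_ ?_ ?_
      · intro i hi
        have hi' := mem_range.mp hi
        by_cases h0 : i = 0
        · subst h0; simp [par_zero hK]
        · simp only [if_neg h0]
          have e : (0 : ZMod N) + ((q - i : ℕ) : ZMod N) * (d : ZMod N) =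
              -(0 + (i : ZMod N) * (d : ZMod N)) := by
            rw [Nat.cast_sub hi'.le]
            linear_combination hqd0
          rw [e, par_neg]
          exact two_zero _
      · intro i hi hne
        have hi' := mem_range.mp hi
        have h0 : i ≠ 0 := by
          rintro rfl
          exact hne (by simp [par_zero hK])
        rw [if_neg h0]
        omega
      · intro i hi
        have hi' := mem_range.mp hi
        split_ifs
        · exact mem_range.mpr hq.pos
        · exact mem_range.mpr (by omega)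
      · intro i hi
        have hi' := mem_range.mp hi
        by_cases h0 : i = 0
        · simp [h0]
        · have h1 : q - i ≠ 0 := by omega
          simp only [if_neg h0, if_neg h1]
          omega
    · have hNq : N / q = d := by rw [← hqd, Nat.mul_div_cancel_left d hq.pos]
      have hst : Standard q N (-((q : ZMod N) * a) ::ₘ
          (Multiset.range q).map fun i : ℕ => a + (i : ZMod N) * ((N / q : ℕ) : ZMod N)) :=
        ⟨hq.odd_of_ne_two hq2, a, ha, rfl⟩
      have h1 := sEven_standard hq (Dvd.intro _ hqd) hst K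
      rw [even_iff_par, Multiset.map_cons, Multiset.sum_cons, par_neg, Multiset.map_map, hNq] at h1
      have h3 : ((Multiset.range q).map (par K ∘ fun i : ℕ => a + (i : ZMod N) * (d : ZMod N))).sum =
          ∑ i ∈ range q, par K (a + (i : ZMod N) * (d : ZMod N)) := rfl
      rw [h3] at h1
      have h4 := two_zero (par K ((q : ZMod N) * a))
      exact (add_left_cancel (h1.trans h4.symm))

/-- all parities at once -/
noncomputable def parv (a : ZMod N) : Finset ℕ → ZMod 2 := fun K =>
  if K.Nonempty ∧ 2 ∉ K then par K a else 0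

lemma parv_dist : OddDist (parv (N := N)) where
  neg := fun a => by
    funext K
    unfold parv
    rw [Pi.neg_apply]
    by_cases h : K.Nonempty ∧ 2 ∉ K
    · simp only [if_pos h]; exact (par_dist h.1 h.2).neg a
    · simp only [if_neg h]; rw [neg_zero]
  half := fun a ha => by
    funext K
    unfold parv
    by_cases h : K.Nonempty ∧ 2 ∉ K
    · rw [if_pos h]; exact (par_dist h.1 h.2).half a ha
    · rw [if_neg h]; rfl
  dist := fun q d hq hqd a => by
    funext K
    rw [Finset.sum_apply]
    unfold parv
    by_cases h : K.Nonempty ∧ 2 ∉ K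
    · simp only [if_pos h]; exact (par_dist h.1 h.2).dist q d hq hqd a
    · simp only [if_neg h, sum_const_zero]

lemma parv_sum {K : Finset ℕ} (hK : K.Nonempty) (h2 : 2 ∉ K) (s : Multiset (ZMod N)) :
    (s.map parv).sum K = (s.map (par K)).sum := by
  induction s using Multiset.induction_on with
  | empty => simp
  | cons a s ih =>
    rw [Multiset.map_cons, Multiset.sum_cons, Pi.add_apply, ih, Multiset.map_cons,
      Multiset.sum_cons]
    congr 1
    unfold parv
    rw [if_pos ⟨hK, h2⟩]

section prod

variable {ι : Type} [Fintype ι] [DecidableEq ι] {n : ι → ℕ} [∀ i, NeZero (n i)]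

lemma order_QQ (_hn : Adm n) (hco : Pairwise (fun i j => (n i).Coprime (n j)))
    (E : (∀ i, ZMod (n i)) ≃+* ZMod N) {T : Finset ι} {x : ∀ i, ZMod (n i)} (hx : x ∈ QQ n T) :
    addOrderOf (E x) = ∏ i ∈ T, n i := by
  rw [mem_QQ] at hx
  have h1 : addOrderOf (E x) = addOrderOf x :=
    addOrderOf_injective (E : (∀ i, ZMod (n i)) →+ ZMod N) E.injective x
  rw [h1]
  have key : ∀ k : ℕ, k • x = 0 ↔ (∏ i ∈ T, n i) ∣ k := by
    intro k
    constructor
    · intro hk
      apply Finset.prod_dvd_of_isRelPrime
      · intro i _ j _ hij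
        exact Nat.coprime_iff_isRelPrime.mp (hco hij)
      · intro i hi
        have h2 := congrFun hk i
        rw [Pi.smul_apply, Pi.zero_apply, nsmul_eq_mul] at h2
        have h3 : IsUnit (x i) := ((mem_Hf1).mp (hx.1 i hi)).1
        rw [h3.mul_left_eq_zero, ZMod.natCast_eq_zero_iff] at h2
        exact h2
    · intro hk
      funext i
      rw [Pi.smul_apply, Pi.zero_apply, nsmul_eq_mul]
      by_cases hi : i ∈ T
      · have h2 : (k : ZMod (n i)) = 0 := by
          rw [ZMod.natCast_eq_zero_iff]
          exact (Finset.dvd_prod_of_mem n hi).trans hk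
        rw [h2, zero_mul]
      · rw [hx.2 i hi, mul_zero]
  apply Nat.dvd_antisymm
  · rw [addOrderOf_dvd_iff_nsmul_eq_zero, key]
  · rw [← key]; exact addOrderOf_nsmul_eq_zero _

end prod

end Pool.Agent.N214.FT
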