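import Pool.Agent.N992.Rel

/-!
Variants of the integral relation between the sums of an odd distribution over products of groups of
squares.
-/

namespace Pool.Agent.N214.FT

open Finset Pool.Agent.N992

section

variable {ι : Type} [Fintype ι] [DecidableEq ι] {n : ι → ℕ} [∀ i, NeZero (n i)]

/-- the pure part of the twisted sum -/
theorem exists_d (hn : Adm n) (hco : Pairwise (fun i j => (n i).Coprime (n j)))
    {χ : ∀ i, ZMod (n i) → ℤ} (hχ : ∀ i, IsChi (n i) (χ i))
    (s : (∀ i, ZMod (n i)) → ℤ) (hs : PiDist n s) (T : Finset ι) :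
    ∃ d ∈ AddSubgroup.closure {f | ∃ T' : Finset ι, T' ⊂ T ∧ f = FF n s T'},
      ∀ t, 2 ^ T.card * (FF n s T t - d t) = WW n χ s T T t := by
  have h1 : ∀ T' ∈ T.ssubsets, ∃ g ∈ AddSubgroup.closure
      {f | ∃ T'' : Finset ι, T'' ⊂ T ∧ f = FF n s T''},
      ∀ t, WW n χ s T' T t = 2 ^ T.card * g t := by
    intro T' hT'
    rw [mem_ssubsets] at hT'
    obtain ⟨e, he, he2⟩ := exists_g hn hco hχ s hs T'
    obtain ⟨A, hA⟩ := WW_chain hn hco hχ s hs T' (T \ T') disjoint_sdiff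
    rw [union_sdiff_of_subset hT'.1] at hA
    refine ⟨A • e, ?_, ?_⟩
    · refine AddSubgroup.zsmul_mem _ (AddSubgroup.closure_mono ?_ he) A
      rintro f ⟨T'', h, rfl⟩
      exact ⟨T'', lt_of_le_of_lt h hT', rfl⟩
    · intro t
      rw [hA t, ← he2 t, Pi.smul_apply, smul_eq_mul, card_sdiff_of_subset hT'.1]
      have h3 : T.card = (T.card - T'.card) + T'.card :=
        (Nat.sub_add_cancel (card_le_card hT'.1)).symm
      have h4 : (2 : ℤ) ^ T.card = 2 ^ (T.card - T'.card) * 2 ^ T'.card := by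
        rw [← pow_add, ← h3]
      rw [h4]
      ring
  choose! g hg hg2 using h1
  refine ⟨∑ T' ∈ T.ssubsets, g T', AddSubgroup.sum_mem _ (fun T' hT' => hg T' hT'), ?_⟩
  intro t
  have h5 := FF_expand hχ s T t
  rw [← Finset.sum_erase_add _ _ (mem_powerset_self T)] at h5
  rw [mul_sub, h5, Finset.sum_apply, mul_sum]
  have h6 : ∑ T' ∈ T.powerset.erase T, WW n χ s T' T t =
      ∑ T' ∈ T.ssubsets, 2 ^ T.card * g T' t := by
    rw [Finset.ssubsets]
    refine sum_congr rfl ?_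
    intro T' hT'
    exact hg2 T' hT' t
  rw [h6]
  ring

/-- The sum over `S` is a combination of those over proper subsets as soon as the twisted sum
vanishes. -/
theorem rel_of_WW (hn : Adm n) (hco : Pairwise (fun i j => (n i).Coprime (n j)))
    {χ : ∀ i, ZMod (n i) → ℤ} (hχ : ∀ i, IsChi (n i) (χ i))
    (s : (∀ i, ZMod (n i)) → ℤ) (hs : PiDist n s) (S : Finset ι)
    (h0 : ∀ t, WW n χ s S S t = 0) :
    FF n s S ∈ AddSubgroup.closure {f | ∃ T : Finset ι, T ⊂ S ∧ f = FF n s T} := by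
  obtain ⟨d, hd, hd2⟩ := exists_d hn hco hχ s hs S
  have : FF n s S = d := by
    funext t
    have h1 := hd2 t
    rw [h0 t] at h1
    have h7 : (2 : ℤ) ^ S.card ≠ 0 := pow_ne_zero _ (by norm_num)
    have h8 := (mul_eq_zero.mp h1).resolve_left h7
    linarith
  rw [this]
  exact hd

theorem rel_even (hn : Adm n) (hco : Pairwise (fun i j => (n i).Coprime (n j)))
    (s : (∀ i, ZMod (n i)) → ℤ) (hs : PiDist n s) (S : Finset ι) (hS : Even S.card) :
    FF n s S ∈ AddSubgroup.closure {f | ∃ T : Finset ι, T ⊂ S ∧ f = FF n s T} := by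
  have hc : ∀ i, ∃ χ : ZMod (n i) → ℤ, IsChi (n i) χ := fun i => exists_chi (n i) (hn i)
  choose χ hχ using hc
  exact rel_of_WW hn hco hχ s hs S (fun t => WW_even hχ hs subset_rfl hS t)

/-- the case of a distribution invariant under a unit of symbol `-1` -/
theorem rel_inv (hn : Adm n) (hco : Pairwise (fun i j => (n i).Coprime (n j)))
    {χ : ∀ i, ZMod (n i) → ℤ} (hχ : ∀ i, IsChi (n i) (χ i))
    (s : (∀ i, ZMod (n i)) → ℤ) (hs : PiDist n s) (S : Finset ι) (u : (∀ i, ZMod (n i))ˣ)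
    (hu : ∀ x, s ((u : ∀ i, ZMod (n i)) * x) = s x)
    (hX : ∏ i ∈ S, χ i ((u : ∀ i, ZMod (n i)) i) = -1) :
    FF n s S ∈ AddSubgroup.closure {f | ∃ T : Finset ι, T ⊂ S ∧ f = FF n s T} := by
  refine rel_of_WW hn hco hχ s hs S (fun t => ?_)
  have h1 := WW_twist hχ s (T' := S) (T := S) subset_rfl u t
  rw [hX] at h1
  have h2 : ∑ x ∈ GG n S, (∏ i ∈ S, χ i (x i)) *
      s ((u : ∀ i, ZMod (n i)) * ((t : ∀ i, ZMod (n i)) * x)) = WW n χ s S S t := by
    unfold WW
    exact sum_congr rfl fun x _ => by rw [hu]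
  rw [h2] at h1
  linarith

theorem inner_sum_four (s : (∀ i, ZMod (n i)) → ℤ) (hs : PiDist n s) (i : ι) (h4 : n i = 4)
    (hco : ∀ k, k ≠ i → (n i).Coprime (n k)) :
    ∃ (u : (∀ i, ZMod (n i))ˣ), (∀ k, k ≠ i → (u : ∀ i, ZMod (n i)) k = 2) ∧
      (∀ z : ∀ i, ZMod (n i), z i = 0 →
      ∑ j ∈ UU (n i), s (Function.update z i j) =
        s ((u : ∀ i, ZMod (n i)) * ((u : ∀ i, ZMod (n i)) * z)) - s ((u : ∀ i, ZMod (n i)) * z)) := by
  have hco2 : ∀ k, k ≠ i → (2 : ℕ).Coprime (n k) := by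
    intro k hk
    have h := hco k hk
    rw [h4] at h
    exact Nat.Coprime.coprime_dvd_left (by norm_num) h
  obtain ⟨u, hu⟩ := exists_pi (n := n) i 2 hco2
  refine ⟨u, ?_, ?_⟩
  · intro k hk
    have h1 := hu (Pi.single k 1) (Pi.single_eq_of_ne (Ne.symm hk) 1)
    have h2 := congrFun h1 k
    rw [Pi.smul_apply, Pi.mul_apply, Pi.single_eq_same, mul_one, nsmul_eq_mul, mul_one] at h2
    rw [← h2]
    push_cast; rfl
  intro z hz
  rw [sum_UU_four h4]
  have h1 := hs.four i h4 (Function.update z i 1)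
  rw [Function.update_self, Function.update_idem] at h1
  rw [h1]
  have h2 : (2 : ℕ) • Function.update z i 1 = Function.update ((2 : ℕ) • z) i 2 := by
    funext k
    by_cases hk : k = i
    · subst hk
      simp
    · rw [Pi.smul_apply, Function.update_of_ne hk, Function.update_of_ne hk, Pi.smul_apply]
  rw [h2]
  have h3 := hs.four i h4 ((2 : ℕ) • z)
  have h5 : ((2 : ℕ) • z) i = 0 := by rw [Pi.smul_apply, hz, smul_zero]
  rw [h5, zero_add] at h3
  have h6 : (2 : ℕ) • z = (u : ∀ i, ZMod (n i)) * z := hu z hz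
  have h7 : (2 : ℕ) • ((2 : ℕ) • z) = (u : ∀ i, ZMod (n i)) * ((u : ∀ i, ZMod (n i)) * z) := by
    rw [hu _ h5, h6]
  rw [h7] at h3
  rw [← h6]
  rw [← h6] at h3
  linarith

theorem WW_four {χ : ∀ i, ZMod (n i) → ℤ} (hχ : ∀ i, IsChi (n i) (χ i))
    (s : (∀ i, ZMod (n i)) → ℤ) (hs : PiDist n s) {T' T : Finset ι} (hT : T' ⊆ T) {i : ι}
    (hi : i ∉ T) (h4 : n i = 4) (hco : ∀ k, k ≠ i → (n i).Coprime (n k)) (t : (∀ i, ZMod (n i))ˣ) :
    WW n χ s T' (insert i T) t = (1 - ∏ k ∈ T', χ k 2) * WW n χ s T' T t := by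
  have key : ∀ t : (∀ i, ZMod (n i))ˣ, WW n χ s T' (insert i T) t =
      ∑ y ∈ GG n T, (∏ k ∈ T', χ k (y k)) *
        ∑ j ∈ UU (n i), s (Function.update ((t : ∀ i, ZMod (n i)) * y) i j) := by
    intro t
    unfold WW
    rw [sum_GG_insert n hi]
    refine sum_congr rfl ?_
    intro y _
    have hs1 := sum_UU_mul ((t : ∀ i, ZMod (n i)) i) (isUnit_apply n t i)
      (fun j => s (Function.update ((t : ∀ i, ZMod (n i)) * y) i j))
    rw [← hs1, mul_sum]
    refine sum_congr rfl ?_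
    intro j _
    have e1 : ∏ k ∈ T', χ k (Function.update y i j k) = ∏ k ∈ T', χ k (y k) := by
      refine prod_congr rfl ?_
      intro k hk
      have hki : k ≠ i := fun h => hi (h ▸ hT hk)
      rw [Function.update_of_ne hki]
    have e2 : (t : ∀ i, ZMod (n i)) * Function.update y i j =
        Function.update ((t : ∀ i, ZMod (n i)) * y) i ((t : ∀ i, ZMod (n i)) i * j) := by
      funext k
      by_cases hk : k = i
      · subst hk
        simp
      · rw [Pi.mul_apply, Function.update_of_ne hk, Function.update_of_ne hk, Pi.mul_apply]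
    rw [e1, e2]
  obtain ⟨u, hu2, hu⟩ := inner_sum_four s hs i h4 hco
  have hX : ∏ k ∈ T', χ k ((u : ∀ i, ZMod (n i)) k) = ∏ k ∈ T', χ k 2 := by
    refine prod_congr rfl fun k hk => ?_
    rw [hu2 k (fun h => hi (h ▸ hT hk))]
  rw [key t]
  have h1 := WW_twist hχ s hT u t
  have h3 := WW_twist hχ s hT (u * u) t
  have h2 : ∑ y ∈ GG n T, (∏ k ∈ T', χ k (y k)) *
      ∑ j ∈ UU (n i), s (Function.update ((t : ∀ i, ZMod (n i)) * y) i j) =
      ∑ y ∈ GG n T, ((∏ k ∈ T', χ k (y k)) *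
        s (((u * u : (∀ i, ZMod (n i))ˣ) : ∀ i, ZMod (n i)) * ((t : ∀ i, ZMod (n i)) * y)) -
        (∏ k ∈ T', χ k (y k)) *
          s ((u : ∀ i, ZMod (n i)) * ((t : ∀ i, ZMod (n i)) * y))) := by
    refine sum_congr rfl ?_
    intro y hy
    rw [hu _ (by rw [Pi.mul_apply, ((mem_GG n y).1 hy).2 i hi, mul_zero]), mul_sub]
    rw [Units.val_mul, mul_assoc (u : ∀ i, ZMod (n i))]
  rw [h2, sum_sub_distrib, h1, h3]
  have h4 : ∏ k ∈ T', χ k (((u * u : (∀ i, ZMod (n i))ˣ) : ∀ i, ZMod (n i)) k) = 1 := by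
    have : ∏ k ∈ T', χ k (((u * u : (∀ i, ZMod (n i))ˣ) : ∀ i, ZMod (n i)) k) =
        (∏ k ∈ T', χ k ((u : ∀ i, ZMod (n i)) k)) *
          ∏ k ∈ T', χ k ((u : ∀ i, ZMod (n i)) k) := by
      rw [← prod_mul_distrib]
      refine prod_congr rfl ?_
      intro k _
      rw [Units.val_mul, Pi.mul_apply]
      exact (hχ k).mul _ _ (isUnit_apply n u k) (isUnit_apply n u k)
    rw [this]
    rcases prod_chi_val hχ T' u with h | h <;> rw [h] <;> norm_num
  rw [h4, hX]
  ring

/-- The sum over `U ∪ {4}` is congruent to the one over `U` if two has symbol `-1`. -/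
theorem rel_four (hn : Adm n) (hco : Pairwise (fun i j => (n i).Coprime (n j)))
    {χ : ∀ i, ZMod (n i) → ℤ} (hχ : ∀ i, IsChi (n i) (χ i))
    (s : (∀ i, ZMod (n i)) → ℤ) (hs : PiDist n s) (U : Finset ι) (hU : Odd U.card) {i : ι}
    (hi : i ∉ U) (h4 : n i = 4) (hX : ∏ k ∈ U, χ k 2 = -1) :
    FF n s (insert i U) - FF n s U ∈
      AddSubgroup.closure {f | ∃ T : Finset ι, T ⊂ insert i U ∧ T ≠ U ∧ f = FF n s T} := by
  set S := insert i U with hS
  have hUS : U ⊂ S := Finset.ssubset_insert hi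
  have hcard : S.card = U.card + 1 := card_insert_of_notMem hi
  have heven : Even S.card := by rw [hcard]; exact hU.add_one
  -- the other subsets
  have h1 : ∀ T' ∈ S.ssubsets.erase U, ∃ g ∈ AddSubgroup.closure
      {f | ∃ T : Finset ι, T ⊂ S ∧ T ≠ U ∧ f = FF n s T}, ∀ t, WW n χ s T' S t = 2 ^ S.card * g t := by
    intro T' hT'
    rw [mem_erase, mem_ssubsets] at hT'
    obtain ⟨hTU, hT'⟩ := hT'
    obtain ⟨e, he, he2⟩ := exists_g hn hco hχ s hs T'
    obtain ⟨A, hA⟩ := WW_chain hn hco hχ s hs T' (S \ T') disjoint_sdiff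
    rw [union_sdiff_of_subset hT'.1] at hA
    refine ⟨A • e, ?_, ?_⟩
    · refine AddSubgroup.zsmul_mem _ (AddSubgroup.closure_mono ?_ he) A
      rintro f ⟨T'', h, rfl⟩
      refine ⟨T'', lt_of_le_of_lt h hT', ?_, rfl⟩
      rintro rfl
      apply hTU
      -- U ⊆ T' ⊂ insert i U
      apply Subset.antisymm _ h
      intro x hx
      rcases mem_insert.mp (hT'.1 hx) with hx' | hx'
      · exfalso
        apply hT'.2
        intro y hy
        rcases mem_insert.mp hy with rfl | hy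
        · rw [← hx']; exact hx
        · exact h hy
      · exact hx'
    · intro t
      rw [hA t, ← he2 t, Pi.smul_apply, smul_eq_mul, card_sdiff_of_subset hT'.1]
      have h3 : S.card = (S.card - T'.card) + T'.card :=
        (Nat.sub_add_cancel (card_le_card hT'.1)).symm
      have h4 : (2 : ℤ) ^ S.card = 2 ^ (S.card - T'.card) * 2 ^ T'.card := by
        rw [← pow_add, ← h3]
      rw [h4]
      ring
  choose! g hg hg2 using h1
  obtain ⟨d, hd, hd2⟩ := exists_d hn hco hχ s hs U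
  have h2 : FF n s S - FF n s U = ∑ T' ∈ S.ssubsets.erase U, g T' - d := by
    funext t
    have h5 := FF_expand hχ s S t
    rw [← Finset.sum_erase_add _ _ (mem_powerset_self S), WW_even hχ hs subset_rfl heven t,
      add_zero] at h5
    have hUm : U ∈ S.ssubsets := mem_ssubsets.mpr hUS
    have h6 : ∑ T' ∈ S.powerset.erase S, WW n χ s T' S t =
        2 ^ S.card * (∑ T' ∈ S.ssubsets.erase U, g T') t + WW n χ s U S t := by
      change ∑ T' ∈ S.ssubsets, WW n χ s T' S t = _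
      rw [← Finset.sum_erase_add _ _ hUm, Finset.sum_apply, mul_sum]
      congr 1
      refine sum_congr rfl ?_
      intro T' hT'
      exact hg2 T' hT' t
    have h7 : WW n χ s U S t = 2 ^ S.card * (FF n s U t - d t) := by
      rw [hS, WW_four hχ s hs subset_rfl hi h4 (fun k hk => hco hk.symm) t, hX, ← hd2 t, ← hS,
        hcard, pow_succ]
      ring
    rw [h6, h7, ← mul_add] at h5
    have h8 : (2 : ℤ) ^ S.card ≠ 0 := pow_ne_zero _ (by norm_num)
    have h9 := mul_left_cancel₀ h8 h5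
    simp only [Pi.sub_apply]
    linarith
  rw [h2]
  refine AddSubgroup.sub_mem _ (AddSubgroup.sum_mem _ (fun T' hT' => hg T' hT')) ?_
  refine AddSubgroup.closure_mono ?_ hd
  rintro f ⟨T', h, rfl⟩
  exact ⟨T', lt_trans h hUS, h.ne, rfl⟩

end

end Pool.Agent.N214.FT
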