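import Pool.Agent.N214.FT.Defs
import Pool.Agent.N214.FT.Par
import Pool.Agent.N214.FT.Rel
import Pool.Agent.N992.Main

/-!
Unions of modular spectra with one odd parity.
-/

set_option linter.unusedSectionVars false

namespace Pool.Agent.N214.FT

open Finset Pool.Agent.H916R2 Pool.Agent.H916T Pool.Agent.H916U Pool.Agent.H916Z Pool.Agent.H916Q
  Pool.Agent.H916Y Pool.Agent.N992

/-! ### Closure properties -/

section basic

variable {m : ℕ} [NeZero m] {p : ℕ}

lemma modu_nsmul {s : Multiset (ZMod m)} (hs : Modu m s) (k : ℕ) : Modu m (k • s) := by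
  induction k with
  | zero => rw [zero_smul]; exact Modu.zero
  | succ k ih => rw [succ_nsmul]; exact ih.add hs

lemma modularTate_of {s : Multiset (ZMod m)} (hs : IsTate p m s) (h : Modu m s) :
    ModularTate p m s := by
  obtain ⟨L, r, h1, h2, h3⟩ := h
  exact ⟨hs, inferInstance, L, r, h1, h2, h3⟩

lemma ModularTate.modu {s : Multiset (ZMod m)} (h : ModularTate p m s) : Modu m s := by
  obtain ⟨_, hz, L, r, h1, h2, h3⟩ := h
  exact ⟨L, r, fun b hb => by
    have := h1 b hb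
    convert this, h2, h3⟩

lemma ModularTate.neg (hpm : p.Coprime m) {s : Multiset (ZMod m)} (h : ModularTate p m s) :
    ModularTate p m (s.map Neg.neg) :=
  modularTate_of (h.1.neg hpm) h.modu.neg

lemma modu_lift {k m0 : ℕ} [NeZero m0] (h : k * m0 = m) {s : Multiset (ZMod m0)}
    (hs : Modu m0 s) : Modu m (s.map (iota k : ZMod m0 → ZMod m)) := by
  obtain ⟨L, r, h1, h2, rfl⟩ := hs
  refine ⟨L.map (fun b => b.map (iota k : ZMod m0 → ZMod m)), r.map (iota k), ?_, ?_, ?_⟩
  · intro b hb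
    obtain ⟨b', hb', rfl⟩ := List.mem_map.mp hb
    exact (h1 b' hb').lift h
  · intro a ha
    obtain ⟨a', ha', rfl⟩ := Multiset.mem_map.mp ha
    have h3 := iota_natMul h 12 a'
    have h4 := h2 a' ha'
    push_cast at h3
    rw [← h3, h4, iota_zero]
  · rw [Multiset.map_add]
    congr 1
    clear h1
    induction L with
    | nil => simp
    | cons b L ih => rw [List.sum_cons, Multiset.map_add, ih, List.map_cons, List.sum_cons]

lemma ModularTate.lift {k m0 : ℕ} [NeZero m0] (h : k * m0 = m) (hpm : p.Coprime m)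
    {s : Multiset (ZMod m0)} (hs : ModularTate p m0 s) :
    ModularTate p m (s.map (iota k : ZMod m0 → ZMod m)) :=
  modularTate_of (isTate_iota h hpm hs.1) (modu_lift h hs.modu)

lemma modu_filter {s : Multiset (ZMod m)} (hs : Modu m s) : Modu m (s.filter (fun a => a ≠ 0)) := by
  obtain ⟨L, r, h1, h2, rfl⟩ := hs
  refine ⟨L, r.filter (fun a => a ≠ 0), h1, fun a ha => h2 a (Multiset.mem_filter.mp ha).1, ?_⟩
  rw [Multiset.filter_add]
  congr 1
  rw [Multiset.filter_eq_self]
  intro a ha h0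
  rw [h0] at ha
  exact List.zero_notMem_sum L (fun b hb => (h1 b hb).zero_notMem) ha

lemma isTate_of_isHodge (hpm : p.Coprime m) {s : Multiset (ZMod m)} (hs : IsHodge m s) :
    IsTate p m s := by
  refine isTate_of_W hpm hs.1 hs.2.1 hs.2.2.1 ?_
  intro t
  have h1 : ∀ u : (ZMod m)ˣ, (s.map fun a => saw ((u : ZMod m) * a)).sum = 0 := by
    intro u
    rw [saw_sum_eq s hs.1 u]
    have h2 := hs.2.2.2 u
    have h3 : ((2 * (s.map fun a => ((u : ZMod m) * a).val).sum : ℕ) : ℤ) =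
        ((m * Multiset.card s : ℕ) : ℤ) := by rw [h2]
    push_cast at h3
    rw [sub_eq_zero]
    push_cast
    exact h3
  have h2 : ∀ s : Multiset (ZMod m), (s.map fun a => W p ((t : ZMod m) * a)).sum =
      ∑ j ∈ range (orderOf (p : ZMod m)),
        (s.map fun a => saw ((p : ZMod m) ^ j * ((t : ZMod m) * a))).sum := by
    intro s
    induction s using Multiset.induction_on with
    | empty => simp
    | cons a s ih =>
      rw [Multiset.map_cons, Multiset.sum_cons, ih]
      unfold W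
      rw [← sum_add_distrib]
      exact sum_congr rfl fun j _ => by rw [Multiset.map_cons, Multiset.sum_cons]
  rw [h2]
  refine sum_eq_zero fun j _ => ?_
  have h3 := h1 ((H916T.isUnit_p hpm).unit ^ j * t)
  simp only [Units.val_mul, Units.val_pow_eq_pow_val, IsUnit.unit_spec, mul_assoc] at h3
  exact h3

/-- a balanced union of modular spectra, up to zeros and an element of order two -/
lemma modChar_of_balanced {s : Multiset (ZMod m)} (hs : Modu m s)
    (hsaw : ∀ t : (ZMod m)ˣ, (s.map fun a => saw ((t : ZMod m) * a)).sum = 0) :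
    ∃ s' : Multiset (ZMod m), IsHodge m s' ∧ Modu m s' ∧
      ∀ K : Finset ℕ, K.Nonempty → 2 ∉ K → (s'.map (par K)).sum = (s.map (par K)).sum := by
  classical
  set s1 := s.filter (fun a => a ≠ 0) with hs1
  have hM1 : Modu m s1 := modu_filter hs
  have h01 : (0 : ZMod m) ∉ s1 := fun h => (Multiset.mem_filter.mp h).2 rfl
  have hsaw' : ∀ t : (ZMod m)ˣ, (s1.map fun a => saw ((t : ZMod m) * a)).sum = 0 := by
    intro t
    rw [← hsaw t, hs1, sum_filter_ne _ (by rw [mul_zero, saw_zero])]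
  have hpar1 : ∀ K : Finset ℕ, K.Nonempty → 2 ∉ K →
      (s1.map (par K)).sum = (s.map (par K)).sum := by
    intro K hK _
    rw [hs1, sum_filter_ne _ (par_zero hK)]
  by_cases heven : Even (Multiset.card s1)
  · exact ⟨s1, isHodge_of_saw h01 heven hsaw', hM1, hpar1⟩
  · rw [Nat.not_even_iff_odd] at heven
    have h3 := saw_sum_eq s1 h01 1
    rw [hsaw' 1] at h3
    have hm2 : 2 ∣ m := by
      obtain ⟨k, hk⟩ := heven
      have h4 : (m : ℤ) * (2 * k + 1) =
          2 * (((s1.map fun a => (((1 : (ZMod m)ˣ) : ZMod m) * a).val).sum : ℕ) : ℤ) := by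
        rw [hk] at h3
        push_cast at h3
        push_cast
        linarith
      have h5 : (2 : ℤ) ∣ (m : ℤ) * (2 * k + 1) := ⟨_, h4⟩
      have h6 : (2 : ℤ) ∣ (m : ℤ) := by
        rcases Int.Prime.dvd_mul' Nat.prime_two h5 with h | h
        · exact_mod_cast h
        · exfalso; omega
      exact_mod_cast h6
    set h : ZMod m := ((m / 2 : ℕ) : ZMod m) with hh
    have hhh : h + h = 0 := by
      have : ((2 * (m / 2) : ℕ) : ZMod m) = 0 := by rw [Nat.mul_div_cancel' hm2]; simp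
      rw [hh, ← two_mul]; push_cast at this; exact this
    have hh0 : h ≠ 0 := by
      intro h'
      rw [hh, ZMod.natCast_eq_zero_iff] at h'
      have hmp := NeZero.pos m
      have h5 : 0 < m / 2 := Nat.div_pos (Nat.le_of_dvd hmp hm2) (by norm_num)
      have := Nat.le_of_dvd h5 h'
      omega
    refine ⟨h ::ₘ s1, isHodge_of_saw ?_ ?_ ?_, ?_, ?_⟩
    · rw [Multiset.mem_cons, not_or]; exact ⟨Ne.symm hh0, h01⟩
    · rw [Multiset.card_cons]; exact heven.add_one
    · intro t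
      rw [Multiset.map_cons, Multiset.sum_cons, hsaw' t, add_zero]
      apply saw_half
      rw [← mul_add, hhh, mul_zero]
    · have h7 : Modu m ({h} : Multiset (ZMod m)) := Modu.torsion (by
        intro a ha
        rw [Multiset.mem_singleton.mp ha]
        linear_combination (6 : ZMod m) * hhh)
      have h8 := h7.add hM1
      rwa [Multiset.singleton_add] at h8
    · intro K hK hK2
      rw [Multiset.map_cons, Multiset.sum_cons, par_half hK hK2 hhh, zero_add]
      exact hpar1 K hK hK2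

end basic

/-! ### The construction -/

/-- A modular Tate character which changes the parity of the support `S`, and otherwise only those
of smaller supports. -/
def Killer (p m : ℕ) (S : Finset ℕ) : Prop :=
  ∃ M : Multiset (ZMod m), ModularTate p m M ∧ Odd (M.countP (Supp S)) ∧
    ∀ K : Finset ℕ, K.Nonempty → 2 ∉ K → ¬ K ⊆ S → Even (M.countP (Supp K))

lemma Killer.lift {p k m0 m : ℕ} [NeZero m0] [NeZero m] (h : k * m0 = m) (hpm : p.Coprime m)
    {S : Finset ℕ} (hS : Killer p m0 S) : Killer p m S := by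
  obtain ⟨M, h1, h2, h3⟩ := hS
  refine ⟨M.map (iota k : ZMod m0 → ZMod m), h1.lift h hpm, ?_, ?_⟩
  · rw [countP_iota h]; exact h2
  · intro K hK hK2 hKS
    rw [countP_iota h]; exact h3 K hK hK2 hKS

section level

variable {ι : Type} [Fintype ι] [LinearOrder ι] {n : ι → ℕ} [∀ i, NeZero (n i)] {N : ℕ} [NeZero N]

/-- the pair attached to a subset -/
noncomputable def pr (E : (∀ i, ZMod (n i)) ≃+* ZMod N) (T : Finset ι) :
    (Finset ℕ → ZMod 2) × ((∀ i, ZMod (n i))ˣ → ℤ) :=
  (∑ x ∈ QQ n T, parv (E x),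
    fun t : (∀ i, ZMod (n i))ˣ => ∑ x ∈ QQ n T, saw (E ((t : ∀ i, ZMod (n i)) * x)))

lemma exists_modu (hn : Adm n) (hco : Pairwise (fun i j => (n i).Coprime (n j)))
    (E : (∀ i, ZMod (n i)) ≃+* ZMod N)
    (Φ : ((∀ i, ZMod (n i))ˣ → ℤ) →+ ((∀ i, ZMod (n i))ˣ → ℤ))
    {P : (Finset ℕ → ZMod 2) × ((∀ i, ZMod (n i))ˣ → ℤ)} (hP : P ∈ KK E (parv_dist (N := N)))
    (𝒯 : Finset ι → Prop)
    (h : Φ P.2 ∈ AddSubgroup.closure {f | ∃ T : Finset ι, 𝒯 T ∧ f = Φ (pr E T).2})
    (V : Finset ℕ → Prop) (hV : ∀ K, V K → ∀ T, 𝒯 T → (pr E T).1 K = 0) :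
    ∃ s : Multiset (ZMod N), Modu N s ∧ (∀ K, V K → (s.map parv).sum K = P.1 K) ∧
      Φ (fun t : (∀ i, ZMod (n i))ˣ =>
        (s.map fun a => saw (E (t : ∀ i, ZMod (n i)) * a)).sum) = 0 := by
  set X : Set ((Finset ℕ → ZMod 2) × ((∀ i, ZMod (n i))ˣ → ℤ)) :=
    {z | ∃ T : Finset ι, 𝒯 T ∧ z = pr E T} with hX
  have h1 : {f : (∀ i, ZMod (n i))ˣ → ℤ | ∃ T : Finset ι, 𝒯 T ∧ f = Φ (pr E T).2} =
      (Φ.comp (AddMonoidHom.snd (Finset ℕ → ZMod 2) ((∀ i, ZMod (n i))ˣ → ℤ))) '' X := by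
    ext f
    constructor
    · rintro ⟨T', h, rfl⟩; exact ⟨_, ⟨T', h, rfl⟩, rfl⟩
    · rintro ⟨_, ⟨T', h, rfl⟩, rfl⟩; exact ⟨T', h, rfl⟩
  rw [h1, ← AddMonoidHom.map_closure] at h
  obtain ⟨z, hz, hz2⟩ := h
  have hzV : ∀ K, V K → z.1 K = 0 := by
    intro K hK
    let ev : ((Finset ℕ → ZMod 2) × ((∀ i, ZMod (n i))ˣ → ℤ)) →+ ZMod 2 :=
      (Pi.evalAddMonoidHom (fun _ : Finset ℕ => ZMod 2) K).comp (AddMonoidHom.fst _ _)
    have h2 : AddSubgroup.closure X ≤ ev.ker := by
      rw [AddSubgroup.closure_le]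
      rintro _ ⟨T, hT, rfl⟩
      exact hV K hK T hT
    exact h2 hz
  have hzK : z ∈ KK E (parv_dist (N := N)) := by
    refine (AddSubgroup.closure_le (K := KK E (parv_dist (N := N)))).mpr ?_ hz
    rintro _ ⟨T', _, rfl⟩
    exact QQ_mem_KK hn hco E parv_dist _ T' rfl
  obtain ⟨s, hs, hs1, hs2⟩ := (KK E (parv_dist (N := N))).sub_mem hP hzK
  refine ⟨s, hs, ?_, ?_⟩
  · intro K hK
    rw [hs1]
    change P.1 K - z.1 K = _
    rw [hzV K hK, sub_zero]
  · have h3 : (fun t : (∀ i, ZMod (n i))ˣ =>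
        (s.map fun a => saw (E (t : ∀ i, ZMod (n i)) * a)).sum) = P.2 - z.2 := by
      funext t
      rw [hs2 t]
      rfl
    rw [h3, map_sub]
    have h4 : Φ z.2 = Φ P.2 := hz2
    rw [h4, sub_self]

/-! ### Supports -/

lemma inj_n (hn : Adm n) (hco : Pairwise (fun i j => (n i).Coprime (n j))) :
    Function.Injective n := by
  intro i j hij
  by_contra hne
  have h1 := hco hne
  simp only [hij, Nat.coprime_self] at h1
  have h2 := hn j
  rcases h2 with h2 | h2
  · rw [h1] at h2; exact absurd h2.1 (by norm_num)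
  · omega

lemma prod_pf (hn : Adm n) (hco : Pairwise (fun i j => (n i).Coprime (n j))) {T : Finset ι}
    (hT : ∀ i ∈ T, (n i).Prime) : (∏ i ∈ T, n i).primeFactors = T.image n := by
  have h1 : ∏ i ∈ T, n i = ∏ q ∈ T.image n, q := by
    rw [prod_image]
    intro i _ j _ h
    exact inj_n hn hco h
  rw [h1, Nat.primeFactors_prod]
  intro q hq
  obtain ⟨i, hi, rfl⟩ := mem_image.mp hq
  exact hT i hi

lemma pr_par (hn : Adm n) (hco : Pairwise (fun i j => (n i).Coprime (n j)))
    (E : (∀ i, ZMod (n i)) ≃+* ZMod N) (T : Finset ι) {K : Finset ℕ} (hK : K.Nonempty)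
    (h2 : 2 ∉ K) :
    (pr E T).1 K = (QQ n T).card • (if (∏ i ∈ T, n i).primeFactors = K then (1 : ZMod 2) else 0) := by
  unfold pr
  simp only []
  rw [Finset.sum_apply]
  have h1 : ∀ x ∈ QQ n T, parv (E x) K =
      if (∏ i ∈ T, n i).primeFactors = K then (1 : ZMod 2) else 0 := by
    intro x hx
    unfold parv
    rw [if_pos ⟨hK, h2⟩]
    exact par_eq (by rw [order_QQ hn hco E hx])
  rw [sum_congr rfl h1, sum_const]

lemma pr_par_four (hn : Adm n) (hco : Pairwise (fun i j => (n i).Coprime (n j)))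
    (E : (∀ i, ZMod (n i)) ≃+* ZMod N) {T : Finset ι} {i : ι} (hi : i ∈ T) (h4 : n i = 4)
    {K : Finset ℕ} (hK : K.Nonempty) (h2 : 2 ∉ K) : (pr E T).1 K = 0 := by
  rw [pr_par hn hco E T hK h2, if_neg, smul_zero]
  rintro rfl
  apply h2
  refine Nat.mem_primeFactors.mpr ⟨Nat.prime_two, ?_, ?_⟩
  · have h3 : n i ∣ ∏ i ∈ T, n i := Finset.dvd_prod_of_mem n hi
    exact Dvd.dvd.trans (by rw [h4]; norm_num) h3
  · exact Finset.prod_ne_zero_iff.mpr fun i _ => NeZero.ne _

lemma card_Hf_prime {k : ℕ} [Fact k.Prime] (h3 : k % 4 = 3) : 2 * (Hf k).card = k - 1 := by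
  classical
  have h1 : (univ.erase (0 : ZMod k)) = Hf k ∪ (Hf k).image (fun x => -x) := by
    ext x
    rw [mem_erase, mem_union, mem_image]
    constructor
    · rintro ⟨hx, _⟩
      rcases cover_Hf h3 hx with h | h
      · left; exact h
      · right; exact ⟨-x, h, neg_neg x⟩
    · rintro (h | ⟨y, hy, rfl⟩)
      · exact ⟨(mem_Hf_prime.mp h).1, mem_univ _⟩
      · exact ⟨neg_ne_zero.mpr (mem_Hf_prime.mp hy).1, mem_univ _⟩
  have h2 : Disjoint (Hf k) ((Hf k).image (fun x => -x)) := by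
    rw [Finset.disjoint_left]
    intro x hx hx'
    obtain ⟨y, hy, rfl⟩ := mem_image.mp hx'
    exact neg_mem_Hf h3 hy hx
  have h4 := congrArg Finset.card h1
  rw [card_union_of_disjoint h2, card_image_of_injective _ neg_injective,
    card_erase_of_mem (mem_univ _), card_univ, ZMod.card] at h4
  omega

lemma card_Hf_odd {k : ℕ} [NeZero k] (hk : (k.Prime ∧ k % 4 = 3) ∨ k = 4) :
    Odd (Hf k).card := by
  rcases hk with ⟨hp, h3⟩ | h4
  · have : Fact k.Prime := ⟨hp⟩
    have h1 : 2 * (Hf k).card = k - 1 := by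
      have h := card_Hf_prime (k := k) h3
      convert h
    rw [Nat.odd_iff]
    omega
  · subst h4
    have h1 : Hf 4 = {1} := by
      ext a
      rw [mem_Hf1, Finset.mem_singleton]
      revert a
      decide
    rw [h1]; decide

lemma card_QQ_odd (hn : Adm n) (T : Finset ι) : Odd (QQ n T).card := by
  unfold Pool.Agent.N992.QQ
  rw [Fintype.card_piFinset]
  refine Finset.prod_induction _ Odd (fun _ _ => Odd.mul) odd_one ?_
  intro i _
  by_cases hi : i ∈ T
  · rw [if_pos hi]; exact card_Hf_odd (hn i)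
  · rw [if_neg hi, card_singleton]; exact odd_one

lemma pr_par_self (hn : Adm n) (hco : Pairwise (fun i j => (n i).Coprime (n j)))
    (E : (∀ i, ZMod (n i)) ≃+* ZMod N) {T : Finset ι} (hT : ∀ i ∈ T, (n i).Prime)
    (hne : T.Nonempty) (h2 : 2 ∉ T.image n) : (pr E T).1 (T.image n) = 1 := by
  rw [pr_par hn hco E T (hne.image n) h2, prod_pf hn hco hT, if_pos rfl, nsmul_eq_mul, mul_one,
    ZMod.natCast_eq_one_iff_odd]
  exact card_QQ_odd hn T

lemma pr_par_ne (hn : Adm n) (hco : Pairwise (fun i j => (n i).Coprime (n j)))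
    (E : (∀ i, ZMod (n i)) ≃+* ZMod N) {T : Finset ι} (hT : ∀ i ∈ T, (n i).Prime)
    {K : Finset ℕ} (hK : K.Nonempty) (h2 : 2 ∉ K) (hne : T.image n ≠ K) :
    (pr E T).1 K = 0 := by
  rw [pr_par hn hco E T hK h2, prod_pf hn hco hT, if_neg hne, smul_zero]

lemma two_notMem_image (hn : Adm n) (T : Finset ι) : 2 ∉ T.image n := by
  intro h
  obtain ⟨i, _, hi⟩ := mem_image.mp h
  rcases hn i with h | h
  · omega
  · omega

/-! ### Even sets -/

lemma balanced_of (E : (∀ i, ZMod (n i)) ≃+* ZMod N) {s : Multiset (ZMod N)}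
    (h : (fun t : (∀ i, ZMod (n i))ˣ =>
        (s.map fun a => saw (E (t : ∀ i, ZMod (n i)) * a)).sum) = 0) (t : (ZMod N)ˣ) :
    (s.map fun a => saw ((t : ZMod N) * a)).sum = 0 := by
  obtain ⟨u, hu⟩ : ∃ u : (∀ i, ZMod (n i))ˣ, E (u : ∀ i, ZMod (n i)) = (t : ZMod N) := by
    refine ⟨Units.mapEquiv E.symm.toMulEquiv t, ?_⟩
    simp
  have h3 := congrFun h u
  simp only [hu] at h3
  exact h3

theorem killer_even {p : ℕ} (hn : Adm n) (hco : Pairwise (fun i j => (n i).Coprime (n j)))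
    (hN : ∏ i, n i = N) (E : (∀ i, ZMod (n i)) ≃+* ZMod N) (hp : p.Coprime N) {S : Finset ι}
    (hS : S.Nonempty) (hSp : ∀ i ∈ S, (n i).Prime) (heven : Even S.card) :
    Killer p N (S.image n) := by
  have hrel := rel_even hn hco (fun x => saw (E x)) (piDist_of hn hco hN E saw_oddDist) S heven
  obtain ⟨s, hs, hs1, hs2⟩ := exists_modu hn hco E (AddMonoidHom.id _)
    (P := pr E S) (QQ_mem_KK hn hco E parv_dist _ S rfl) (fun T => T ⊂ S)
    (by exact hrel)
    (fun K => K.Nonempty ∧ 2 ∉ K ∧ ¬ K ⊂ S.image n) (by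
      rintro K ⟨hK, hK2, hKS⟩ T hT
      refine pr_par_ne hn hco E (fun i hi => hSp i (hT.1 hi)) hK hK2 ?_
      rintro rfl
      exact hKS ((Finset.image_ssubset_image (inj_n hn hco)).mpr hT))
  obtain ⟨s', hH, hMod, hpar⟩ := modChar_of_balanced hs (balanced_of E hs2)
  have h2S := two_notMem_image hn S
  refine ⟨s', modularTate_of (isTate_of_isHodge hp hH) hMod, ?_, ?_⟩
  · rw [odd_iff_par, hpar _ (hS.image n) h2S, ← parv_sum (hS.image n) h2S,
      hs1 _ ⟨hS.image n, h2S, (fun h => h.ne rfl)⟩]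
    exact pr_par_self hn hco E hSp hS h2S
  · intro K hK hK2 hKS
    rw [even_iff_par, hpar _ hK hK2, ← parv_sum hK hK2,
      hs1 _ ⟨hK, hK2, fun h => hKS h.1⟩]
    exact pr_par_ne hn hco E hSp hK hK2 (fun h => hKS (by rw [h]))

/-! ### Odd sets and the factor four -/

theorem killer_four {p : ℕ} (hn : Adm n) (hco : Pairwise (fun i j => (n i).Coprime (n j)))
    (hN : ∏ i, n i = N) (E : (∀ i, ZMod (n i)) ≃+* ZMod N) (hp : p.Coprime N)
    {χ : ∀ i, ZMod (n i) → ℤ} (hχ : ∀ i, IsChi (n i) (χ i)) {U : Finset ι}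
    (hU : U.Nonempty) (hUp : ∀ i ∈ U, (n i).Prime) (hodd : Odd U.card) {i4 : ι} (h4 : n i4 = 4)
    (hX : ∏ k ∈ U, χ k 2 = -1) : Killer p N (U.image n) := by
  have hi4 : i4 ∉ U := fun h => by
    have := hUp i4 h
    rw [h4] at this
    exact absurd this (by norm_num)
  have hrel := rel_four hn hco hχ (fun x => saw (E x)) (piDist_of hn hco hN E saw_oddDist) U hodd
    hi4 h4 hX
  obtain ⟨s, hs, hs1, hs2⟩ := exists_modu hn hco E (AddMonoidHom.id _)
    (P := pr E (insert i4 U) - pr E U)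
    ((KK E parv_dist).sub_mem (QQ_mem_KK hn hco E parv_dist _ (insert i4 U) rfl)
      (QQ_mem_KK hn hco E parv_dist _ U rfl)) (fun T => T ⊂ insert i4 U ∧ T ≠ U)
    (by
      have hset : {f : (∀ i, ZMod (n i))ˣ → ℤ | ∃ T : Finset ι, (T ⊂ insert i4 U ∧ T ≠ U) ∧
          f = (AddMonoidHom.id ((∀ i, ZMod (n i))ˣ → ℤ)) (pr E T).2} =
          {f | ∃ T : Finset ι, T ⊂ insert i4 U ∧ T ≠ U ∧ f = FF n (fun x => saw (E x)) T} := by
        ext f
        constructor
        · rintro ⟨T, ⟨h1, h2⟩, h3⟩; exact ⟨T, h1, h2, h3⟩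
        · rintro ⟨T, h1, h2, h3⟩; exact ⟨T, ⟨h1, h2⟩, h3⟩
      rw [hset]
      exact hrel)
    (fun K => K.Nonempty ∧ 2 ∉ K ∧ ¬ K ⊂ U.image n) (by
      rintro K ⟨hK, hK2, hKS⟩ T ⟨hT, hTU⟩
      by_cases h : i4 ∈ T
      · exact pr_par_four hn hco E h h4 hK hK2
      · have hTU' : T ⊂ U := by
          refine lt_of_le_of_ne ?_ hTU
          intro x hx
          rcases mem_insert.mp (hT.1 hx) with h1 | h1
          · rw [h1] at hx; exact absurd hx h
          · exact h1
        refine pr_par_ne hn hco E (fun i hi => hUp i (hTU'.1 hi)) hK hK2 ?_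
        rintro rfl
        exact hKS ((Finset.image_ssubset_image (inj_n hn hco)).mpr hTU'))
  obtain ⟨s', hH, hMod, hpar⟩ := modChar_of_balanced hs (balanced_of E hs2)
  have h2S := two_notMem_image hn U
  have hval : ∀ K : Finset ℕ, K.Nonempty → 2 ∉ K →
      (pr E (insert i4 U) - pr E U).1 K = - (pr E U).1 K := by
    intro K hK hK2
    change (pr E (insert i4 U)).1 K - (pr E U).1 K = _
    rw [pr_par_four hn hco E (mem_insert_self i4 U) h4 hK hK2, zero_sub]
  refine ⟨s', modularTate_of (isTate_of_isHodge hp hH) hMod, ?_, ?_⟩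
  · rw [odd_iff_par, hpar _ (hU.image n) h2S, ← parv_sum (hU.image n) h2S,
      hs1 _ ⟨hU.image n, h2S, (fun h => h.ne rfl)⟩, hval _ (hU.image n) h2S,
      pr_par_self hn hco E hUp hU h2S]
    decide
  · intro K hK hK2 hKS
    rw [even_iff_par, hpar _ hK hK2, ← parv_sum hK hK2,
      hs1 _ ⟨hK, hK2, fun h => hKS h.1⟩, hval _ hK hK2,
      pr_par_ne hn hco E hUp hK hK2 (fun h => hKS (by rw [h])), neg_zero]

/-! ### Odd sets of symbol `-1` -/

lemma oddDist_W {p : ℕ} (hp : p.Coprime N) : OddDist (fun a : ZMod N => W p a) where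
  neg := fun a => W_neg p a
  half := fun a ha => W_half p ha
  dist := fun q d _ hqd a => by
    have h := W_dist_unit hp hqd (1 : (ZMod N)ˣ) a
    simpa using h

/-- the average over the powers of a unit -/
def avg (P : (∀ i, ZMod (n i))ˣ) (f : ℕ) :
    ((∀ i, ZMod (n i))ˣ → ℤ) →+ ((∀ i, ZMod (n i))ˣ → ℤ) where
  toFun := fun g t => ∑ j ∈ range f, g (P ^ j * t)
  map_zero' := by funext t; simp
  map_add' := fun g h => by
    funext t
    simp only [Pi.add_apply]
    rw [sum_add_distrib]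

lemma modu_QQ (hn : Adm n) (E : (∀ i, ZMod (n i)) ≃+* ZMod N) {T : Finset ι}
    (hT : T.Nonempty) (hTp : ∀ i ∈ T, (n i).Prime) : Modu N ((QQ n T).val.map E) := by
  have hs := spec_PA E (fun i => Hf (n i)) (fun _ => 1) T (by
    intro i hi
    have : Fact (n i).Prime := ⟨hTp i hi⟩
    have h3 : n i % 4 = 3 := by
      rcases hn i with h | h
      · exact h.2
      · have := hTp i hi; rw [h] at this; exact absurd this (by norm_num)
    have h4 := spec_odd h3 (inc E i) (inc_injective E i)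
    convert h4)
  rw [Finset.prod_const_one] at hs
  have hmod := hs.modular
  have h0T := zero_notMem_QQ (n := n) hn hT
  have hfil : ((PA (fun i => Hf (n i)) T).val.map E).filter (fun a => a ≠ 0) =
      (PA (fun i => Hf (n i)) T).val.map E := by
    rw [Multiset.filter_eq_self]
    intro a ha
    obtain ⟨x, hx, rfl⟩ := Multiset.mem_map.mp ha
    intro h0
    apply h0T
    have hx0 : x = 0 := by
      apply E.injective; rw [h0, map_zero]
    rw [← hx0]; exact hx
  rw [hfil] at hmod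
  exact Modu.single hmod

end level

end Pool.Agent.N214.FT
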