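import Pool.Agent.N214.FT.Mod

/-!
Unions of modular spectra with one odd parity: sets of primes of symbol `-1`.
-/

set_option linter.unusedSectionVars false

namespace Pool.Agent.N214.FT

open Finset Pool.Agent.H916R2 Pool.Agent.H916T Pool.Agent.H916U Pool.Agent.H916Z Pool.Agent.H916Q
  Pool.Agent.H916Y Pool.Agent.N992

section level

variable {N : ℕ} [NeZero N]

lemma map_nsmul_sum {Q : Type} [AddCommGroup Q] (g : ZMod N → Q) (k : ℕ)
    (X : Multiset (ZMod N)) : ((k • X).map g).sum = k • (X.map g).sum := by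
  induction k with
  | zero => simp
  | succ k ih => rw [succ_nsmul, Multiset.map_add, Multiset.sum_add, ih, succ_nsmul]

lemma killer_of_W {p : ℕ} (hp : p.Coprime N) (hN2 : Odd N) {X : Multiset (ZMod N)}
    (h0 : (0 : ZMod N) ∉ X) (heven : Even (Multiset.card X))
    (hW : ∀ t : (ZMod N)ˣ, (X.map fun a => W p ((t : ZMod N) * a)).sum = 0) (hM : Modu N X)
    {S : Finset ℕ} (hS : (X.map (par S)).sum = 1)
    (hK : ∀ K : Finset ℕ, K.Nonempty → 2 ∉ K → ¬ K ⊆ S → (X.map (par K)).sum = 0) :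
    Killer p N S := by
  have hN0 : N ≠ 0 := NeZero.ne N
  have hodd : ∀ x : ZMod 2, N • x = x := by
    intro x
    have h1 : (N : ZMod 2) = 1 := (ZMod.natCast_eq_one_iff_odd).mpr hN2
    rw [nsmul_eq_mul, h1, one_mul]
  refine ⟨N • X, modularTate_of (isTate_of_W hp ?_ ?_ ?_ ?_) (modu_nsmul hM N), ?_, ?_⟩
  · rw [Multiset.mem_nsmul]; exact fun h => h0 h.2
  · rw [Multiset.card_nsmul]; exact heven.mul_left N
  · have h1 : (N • X).sum = N • X.sum := by
      have := map_nsmul_sum (fun a : ZMod N => a) N X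
      simpa using this
    rw [h1, nsmul_eq_mul]; simp
  · intro t
    rw [map_nsmul_sum, hW t, smul_zero]
  · rw [odd_iff_par, map_nsmul_sum, hodd]; exact hS
  · intro K h1 h2 h3
    rw [even_iff_par, map_nsmul_sum, hodd]; exact hK K h1 h2 h3

variable {ι : Type} [Fintype ι] [LinearOrder ι] {n : ι → ℕ} [∀ i, NeZero (n i)]

lemma FF_empty (s : (∀ i, ZMod (n i)) → ℤ) (hs : PiDist n s) : FF n s ∅ = 0 := by
  funext t
  unfold FF
  rw [Pi.zero_apply]
  apply sum_eq_zero
  intro x hx
  rw [mem_QQ] at hx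
  have hx0 : x = 0 := by
    funext i
    exact hx.2 i (notMem_empty i)
  rw [hx0, mul_zero]
  have h1 := hs.neg 0
  rw [neg_zero] at h1
  omega

theorem killer_odd {p : ℕ} (hn : Adm n) (hco : Pairwise (fun i j => (n i).Coprime (n j)))
    (hN : ∏ i, n i = N) (E : (∀ i, ZMod (n i)) ≃+* ZMod N) (hp : p.Coprime N)
    (hprime : ∀ i, (n i).Prime) {χ : ∀ i, ZMod (n i) → ℤ} (hχ : ∀ i, IsChi (n i) (χ i))
    {S : Finset ι} (hS1 : 1 < S.card) (u : (∀ i, ZMod (n i))ˣ)
    (hu : ∀ i, (u : ∀ i, ZMod (n i)) i = (p : ZMod (n i)))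
    (hX : ∏ i ∈ S, χ i ((u : ∀ i, ZMod (n i)) i) = -1) : Killer p N (S.image n) := by
  set f := orderOf (p : ZMod N) with hf
  have hEu : E (u : ∀ i, ZMod (n i)) = (p : ZMod N) := by
    rw [E_natCast E]
    congr 1
    funext i
    exact hu i
  have hS : S.Nonempty := Finset.card_pos.mp (by omega)
  have hPD : PiDist n (fun x => W p (E x)) := piDist_of hn hco hN E (oddDist_W hp)
  have hinv : ∀ x, (fun x => W p (E x)) ((u : ∀ i, ZMod (n i)) * x) = (fun x => W p (E x)) x := by
    intro x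
    simp only [map_mul, hEu, W_mul]
  have hrel := rel_inv hn hco hχ (fun x => W p (E x)) hPD S u hinv hX
  have hFF : ∀ T : Finset ι, FF n (fun x => W p (E x)) T = avg u f (pr E T).2 := by
    intro T
    funext t
    change ∑ x ∈ QQ n T, W p (E ((t : ∀ i, ZMod (n i)) * x)) =
      ∑ j ∈ range f, ∑ x ∈ QQ n T, saw (E (((u ^ j * t : (∀ i, ZMod (n i))ˣ) :
        ∀ i, ZMod (n i)) * x))
    rw [sum_comm]
    refine sum_congr rfl fun x _ => ?_
    unfold W
    refine sum_congr rfl fun j _ => ?_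
    congr 1
    rw [Units.val_mul, Units.val_pow_eq_pow_val, mul_assoc, map_mul E, map_mul E, map_pow, hEu,
      map_mul E]
  obtain ⟨s, hs, hs1, hs2⟩ := exists_modu hn hco E (avg u f)
    (P := pr E S) (QQ_mem_KK hn hco E parv_dist _ S rfl) (fun T => T ⊂ S)
    (by
      rw [← hFF]
      convert hrel using 1
      congr 1
      ext g
      constructor
      · rintro ⟨T, h1, h2⟩; exact ⟨T, h1, by rw [h2, hFF]⟩
      · rintro ⟨T, h1, h2⟩; exact ⟨T, h1, by rw [h2, hFF]⟩)
    (fun K => K.Nonempty ∧ 2 ∉ K ∧ ¬ K ⊂ S.image n) (by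
      rintro K ⟨hK, hK2, hKS⟩ T hT
      refine pr_par_ne hn hco E (fun i _ => hprime i) hK hK2 ?_
      rintro rfl
      exact hKS ((Finset.image_ssubset_image (inj_n hn hco)).mpr hT))
  -- the averaged sums vanish
  have hWs : ∀ t : (ZMod N)ˣ, (s.map fun a => W p ((t : ZMod N) * a)).sum = 0 := by
    intro t
    obtain ⟨v, hv⟩ : ∃ v : (∀ i, ZMod (n i))ˣ, E (v : ∀ i, ZMod (n i)) = (t : ZMod N) := by
      refine ⟨Units.mapEquiv E.symm.toMulEquiv t, ?_⟩
      simp
    have h3 := congrFun hs2 v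
    change ∑ j ∈ range f, (s.map fun a => saw (E ((u ^ j * v : (∀ i, ZMod (n i))ˣ) :
      ∀ i, ZMod (n i)) * a)).sum = 0 at h3
    rw [← h3]
    have h2 : ∀ s : Multiset (ZMod N), (s.map fun a => W p ((t : ZMod N) * a)).sum =
        ∑ j ∈ range f, (s.map fun a => saw ((p : ZMod N) ^ j * ((t : ZMod N) * a))).sum := by
      intro s
      induction s using Multiset.induction_on with
      | empty => simp
      | cons a s ih =>
        rw [Multiset.map_cons, Multiset.sum_cons, ih]
        unfold W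
        rw [← sum_add_distrib]
        exact sum_congr rfl fun j _ => by rw [Multiset.map_cons, Multiset.sum_cons]
    rw [h2]
    refine sum_congr rfl fun j _ => ?_
    congr 1
    apply Multiset.map_congr rfl
    intro a _
    rw [Units.val_mul, Units.val_pow_eq_pow_val, map_mul, map_pow, hEu, hv, mul_assoc]
  -- the correction of the cardinality
  obtain ⟨i0, hi0, hχ0⟩ : ∃ i ∈ S, χ i ((u : ∀ i, ZMod (n i)) i) = -1 := by
    by_contra hcon
    push Not at hcon
    have h1 : ∏ i ∈ S, χ i ((u : ∀ i, ZMod (n i)) i) = 1 := by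
      apply prod_eq_one
      intro i hi
      rcases (hχ i).val _ (isUnit_apply n u i) with h | h
      · exact h
      · exact absurd h (hcon i hi)
    rw [h1] at hX
    norm_num at hX
  have hD0 : FF n (fun x => W p (E x)) {i0} = 0 := by
    have h1 := rel_inv hn hco hχ (fun x => W p (E x)) hPD {i0} u hinv (by
      rw [prod_singleton]; exact hχ0)
    have h2 : AddSubgroup.closure {g : (∀ i, ZMod (n i))ˣ → ℤ | ∃ T : Finset ι, T ⊂ {i0} ∧
        g = FF n (fun x => W p (E x)) T} ≤ ⊥ := by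
      rw [AddSubgroup.closure_le]
      rintro _ ⟨T, hT, rfl⟩
      rw [Finset.ssubset_singleton_iff] at hT
      rw [hT, FF_empty _ hPD]
      exact AddSubgroup.zero_mem _
    exact (AddSubgroup.mem_bot).mp (h2 h1)
  set D : Multiset (ZMod N) := (QQ n {i0}).val.map E with hD
  have hDM : Modu N D := modu_QQ hn E (singleton_nonempty i0) (fun i _ => hprime i)
  have hDW : ∀ t : (ZMod N)ˣ, (D.map fun a => W p ((t : ZMod N) * a)).sum = 0 := by
    intro t
    obtain ⟨v, hv⟩ : ∃ v : (∀ i, ZMod (n i))ˣ, E (v : ∀ i, ZMod (n i)) = (t : ZMod N) := by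
      refine ⟨Units.mapEquiv E.symm.toMulEquiv t, ?_⟩
      simp
    have h3 := congrFun hD0 v
    rw [Pi.zero_apply] at h3
    rw [← h3, hD, Multiset.map_map]
    unfold FF Finset.sum
    congr 1
    apply Multiset.map_congr rfl
    intro x _
    simp only [Function.comp_apply, map_mul, hv]
  have hD0' : (0 : ZMod N) ∉ D := by
    intro h
    obtain ⟨x, hx, hx0⟩ := Multiset.mem_map.mp h
    apply zero_notMem_QQ (n := n) hn (singleton_nonempty i0)
    have : x = 0 := by apply E.injective; rw [hx0, map_zero]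
    rw [← this]; exact hx
  have hDcard : Odd (Multiset.card D) := by
    rw [hD, Multiset.card_map]
    exact card_QQ_odd hn {i0}
  have hSi0 : ({i0} : Finset ι) ⊂ S := by
    refine lt_of_le_of_ne (singleton_subset_iff.mpr hi0) ?_
    rintro rfl
    simp at hS1
  have hDpar : ∀ K : Finset ℕ, K.Nonempty → 2 ∉ K → ¬ K ⊂ S.image n →
      (D.map (par K)).sum = 0 := by
    intro K hK hK2 hKS
    have h1 : (D.map (par K)).sum = (pr E {i0}).1 K := by
      rw [← parv_sum hK hK2]
      have : (D.map parv).sum = (pr E {i0}).1 := by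
        rw [hD, Multiset.map_map]
        rfl
      rw [this]
    rw [h1]
    refine pr_par_ne hn hco E (fun i _ => hprime i) hK hK2 ?_
    rintro rfl
    exact hKS ((Finset.image_ssubset_image (inj_n hn hco)).mpr hSi0)
  -- remove the zeros
  set s1 := s.filter (fun a => a ≠ 0) with hs1'
  have hM1 : Modu N s1 := modu_filter hs
  have h01 : (0 : ZMod N) ∉ s1 := fun h => (Multiset.mem_filter.mp h).2 rfl
  have hW1 : ∀ t : (ZMod N)ˣ, (s1.map fun a => W p ((t : ZMod N) * a)).sum = 0 := by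
    intro t
    rw [← hWs t, hs1', sum_filter_ne _ (by rw [mul_zero, W_zero])]
  have h2S := two_notMem_image hn S
  have hpar1 : ∀ K : Finset ℕ, K.Nonempty → 2 ∉ K → ¬ K ⊂ S.image n →
      (s1.map (par K)).sum = (pr E S).1 K := by
    intro K hK hK2 hKS
    rw [hs1', sum_filter_ne _ (par_zero hK), ← parv_sum hK hK2, hs1 K ⟨hK, hK2, hKS⟩]
  have hN2 : Odd N := by
    rw [← hN]
    refine Finset.prod_induction _ Odd (fun _ _ => Odd.mul) odd_one ?_
    intro i _
    rcases hn i with h | h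
    · rw [Nat.odd_iff]; omega
    · have := hprime i; rw [h] at this; exact absurd this (by norm_num)
  have hfinS : (pr E S).1 (S.image n) = 1 :=
    pr_par_self hn hco E (fun i _ => hprime i) hS h2S
  have hfin0 : ∀ K : Finset ℕ, K.Nonempty → 2 ∉ K → ¬ K ⊆ S.image n → (pr E S).1 K = 0 := by
    intro K hK hK2 hKS
    exact pr_par_ne hn hco E (fun i _ => hprime i) hK hK2 (fun h => hKS (by rw [h]))
  by_cases heven : Even (Multiset.card s1)
  · refine killer_of_W hp hN2 h01 heven hW1 hM1 ?_ ?_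
    · rw [hpar1 _ (hS.image n) h2S (fun h => h.ne rfl), hfinS]
    · intro K hK hK2 hKS
      rw [hpar1 K hK hK2 (fun h => hKS h.1), hfin0 K hK hK2 hKS]
  · rw [Nat.not_even_iff_odd] at heven
    refine killer_of_W hp hN2 (X := s1 + D) ?_ ?_ ?_ (hM1.add hDM) ?_ ?_
    · rw [Multiset.mem_add, not_or]; exact ⟨h01, hD0'⟩
    · rw [Multiset.card_add]; exact heven.add_odd hDcard
    · intro t
      rw [Multiset.map_add, Multiset.sum_add, hW1 t, hDW t, add_zero]
    · rw [Multiset.map_add, Multiset.sum_add, hpar1 _ (hS.image n) h2S (fun h => h.ne rfl),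
        hfinS, hDpar _ (hS.image n) h2S (fun h => h.ne rfl), add_zero]
    · intro K hK hK2 hKS
      rw [Multiset.map_add, Multiset.sum_add, hpar1 K hK hK2 (fun h => hKS h.1),
        hfin0 K hK hK2 hKS, hDpar K hK hK2 (fun h => hKS h.1), add_zero]

end level

end Pool.Agent.N214.FT
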